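import Pool.Agent.H875.TM.Tay

set_option autoImplicit false

/-!
# Moments of zeta and moments of the derivatives: the equivalence
-/

namespace Pool.Agent.H875.TM

open Complex Filter Topology Set MeasureTheory Metric
open Pool.Agent.H24R2.JP (XX HH Om)
open scoped ComplexConjugate

lemma mo_mono {p r e e' : ℝ} (hp : 0 < p) (h : e ≤ e') (hM : Mo p r e) : Mo p r e' := by
  intro ε hε
  obtain ⟨T0, k0⟩ := hM ε hε
  refine ⟨max T0 1, fun T hT => (k0 T ((le_max_left _ _).trans hT)).trans ?_⟩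
  apply Real.rpow_le_rpow (Real.exp_pos _).le _ hp.le
  apply Real.exp_le_exp.2
  exact mul_le_mul_of_nonneg_left (by linarith) (Om_nonneg ((le_max_right _ _).trans hT))

/-- the trivial bound -/
lemma mo_start {p r : ℝ} (hp : 2 ≤ p) (hr : 0 ≤ r) (hr1 : r < 1 / 2) : Mo p r (1 / 2 + 2 / p) := by
  intro ε hε
  have hp0 : 0 < p := by linarith
  have hEx := TC.ex_start (σ := 1 / 2 + r) (by linarith) (by linarith)
  obtain ⟨C, hC⟩ := hEx (ε / 4) (by linarith)
  have hC' : 0 < max C 1 := lt_max_of_lt_right one_pos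
  obtain ⟨T1, hT1, k1⟩ := Om_large' ((Real.log (max C 1) + 1 + ε) * (2 / ε))
  refine ⟨max T1 1, fun T hT => ?_⟩
  have g1 : T1 ≤ T := (le_max_left _ _).trans hT
  have hT1' : 1 ≤ T := (le_max_right _ _).trans hT
  have hT0 : 0 < T := by linarith
  have hO := k1 T g1
  rw [mul_div_assoc', div_le_iff₀ hε] at hO
  have h3 : ∀ τ ∈ Icc T (2 * T), ‖gz (r : ℂ) τ‖ ≤ Real.exp (Om T * (1 / 2 + ε)) := by
    intro τ hτ
    have hτ0 : 0 < τ := by linarith [hτ.1]
    obtain ⟨o1, o2⟩ := Om_block hT1' hτ.1 hτ.2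
    have h4 := hC τ (by rw [abs_of_pos hτ0]; linarith [hτ.1])
    have e1 : gz (r : ℂ) τ = riemannZeta (((1 / 2 + r : ℝ) : ℂ) + τ * I) := by
      unfold gz
      congr 1
      push_cast
      ring
    rw [e1]
    refine h4.trans ?_
    rw [abs_of_pos hτ0]
    have e2 : τ ^ (1 / 4 + ε / 4) = Real.exp (Om τ * (1 / 2 + ε / 2)) := by
      rw [Real.rpow_def_of_pos hτ0]
      unfold Om
      congr 1
      ring
    rw [e2]
    calc C * Real.exp (Om τ * (1 / 2 + ε / 2)) ≤ max C 1 * Real.exp (Om τ * (1 / 2 + ε / 2)) :=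
          mul_le_mul_of_nonneg_right (le_max_left _ _) (Real.exp_pos _).le
      _ = Real.exp (Real.log (max C 1) + Om τ * (1 / 2 + ε / 2)) := by rw [Real.exp_add, Real.exp_log hC']
      _ ≤ _ := by
          apply Real.exp_le_exp.2
          have h5 : Om τ * (1 / 2 + ε / 2) ≤ (Om T + 1) * (1 / 2 + ε / 2) :=
            mul_le_mul_of_nonneg_right o2 (by positivity)
          linarith
  have h4 := ip_const hp0 (by linarith : T ≤ 2 * T) (gz_cont (r : ℂ) (by rw [ofReal_im]; linarith)) h3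
  refine h4.trans ?_
  have e1 : 2 * T - T = T := by ring
  rw [e1]
  calc T * Real.exp (Om T * (1 / 2 + ε)) ^ p =
        Real.exp (Om T * (2 / p)) ^ p * Real.exp (Om T * (1 / 2 + ε)) ^ p := by rw [← T_eq hp hT1']
    _ = Real.exp (Om T * (1 / 2 + 2 / p + ε)) ^ p := by
        rw [← Real.mul_rpow (Real.exp_pos _).le (Real.exp_pos _).le, ← Real.exp_add]
        congr 2
        ring
    _ ≤ _ := le_rfl

/-- **The moments of zeta from the moments of the derivatives.** -/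
theorem mo_of_dm {p q : ℝ} (hp : 2 ≤ p) (hpq : p.HolderConjugate q) {r r0 c : ℝ} (hr : 0 ≤ r)
    (hr1 : r < 1 / 2) (hr0 : r < r0) (hc : 2 / p ≤ c) (hDM : DM p r r0 c) : Mo p r c := by
  have hp0 : 0 < p := by linarith
  obtain ⟨S, hS⟩ : ∃ S : Set ℝ, S = {e : ℝ | 2 / p ≤ e ∧ Mo p r e} := ⟨_, rfl⟩
  have hS1 : (1 / 2 + 2 / p : ℝ) ∈ S := by rw [hS]; exact ⟨by linarith, mo_start hp hr hr1⟩
  have hSb : BddBelow S := ⟨2 / p, fun x hx => by rw [hS] at hx; exact hx.1⟩
  obtain ⟨e0, he0⟩ : ∃ e0 : ℝ, e0 = sInf S := ⟨_, rfl⟩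
  have he2 : 2 / p ≤ e0 := by rw [he0]; exact le_csInf ⟨_, hS1⟩ fun x hx => by rw [hS] at hx; exact hx.1
  have hp2 : 0 < 2 / p := by positivity
  have hM : Mo p r e0 := by
    intro ε hε
    obtain ⟨e, heS, he⟩ := exists_lt_of_csInf_lt ⟨_, hS1⟩ (show sInf S < e0 + ε / 2 by rw [← he0]; linarith)
    rw [hS] at heS
    obtain ⟨T0, k0⟩ := heS.2 (ε / 2) (by linarith)
    refine ⟨max T0 1, fun T hT => (k0 T ((le_max_left _ _).trans hT)).trans ?_⟩
    apply Real.rpow_le_rpow (Real.exp_pos _).le _ hp0.le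
    apply Real.exp_le_exp.2
    exact mul_le_mul_of_nonneg_left (by linarith) (Om_nonneg ((le_max_right _ _).trans hT))
  rcases le_or_gt e0 c with h4 | h4
  · exact mo_mono hp0 h4 hM
  exfalso
  obtain ⟨h, hh⟩ : ∃ h : ℝ, h = min ((e0 - c) / 2) (min ((r0 - r) / 2) (1 / 2 - r)) := ⟨_, rfl⟩
  have a0 : 0 < h := by
    rw [hh]; exact lt_min (by linarith) (lt_min (by linarith) (by linarith))
  have a1 : h ≤ (e0 - c) / 2 := by rw [hh]; exact min_le_left _ _
  have a2 : h ≤ (r0 - r) / 2 := by rw [hh]; exact (min_le_right _ _).trans (min_le_left _ _)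
  have a3 : h ≤ 1 / 2 - r := by rw [hh]; exact (min_le_right _ _).trans (min_le_right _ _)
  have hD : 0 < r0 - r := by linarith
  have s1 := step1 hp hpq hr hr1.le hr0 he2 a0 (by linarith) hM hDM
  obtain ⟨E, hE⟩ : ∃ E, E = max c (e0 + (r0 - r) * Real.log (1 - h / (r0 - r))) := ⟨_, rfl⟩
  rw [← hE] at s1
  have hy0 : 0 < h / (r0 - r) := by positivity
  have hy1 : h / (r0 - r) < 1 := by rw [div_lt_one hD]; linarith
  have hlog : Real.log (1 - h / (r0 - r)) < -(h / (r0 - r)) := by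
    have := Real.log_lt_sub_one_of_pos (x := 1 - h / (r0 - r)) (by linarith) (by linarith)
    linarith
  have hlog2 : (r0 - r) * Real.log (1 - h / (r0 - r)) < -h := by
    have h5 := mul_lt_mul_of_pos_left hlog hD
    have h6 : (r0 - r) * -(h / (r0 - r)) = -h := by field_simp
    linarith
  have hcE : c ≤ E := by rw [hE]; exact le_max_left _ _
  have hElt : E + h < e0 := by
    rw [hE]
    have : max c (e0 + (r0 - r) * Real.log (1 - h / (r0 - r))) < e0 - h :=
      max_lt (by linarith) (by linarith)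
    linarith
  have s2 := step2 hp hpq hr a0 (by linarith) (by linarith) s1
  have hmem : E + h ∈ S := by rw [hS]; exact ⟨by linarith, s2⟩
  have := csInf_le hSb hmem
  rw [← he0] at this
  linarith

theorem mo_iff_dm {p : ℝ} (hp : 2 ≤ p) {r r0 c : ℝ} (hr : 0 ≤ r) (hr1 : r < 1 / 2) (hr0 : r < r0)
    (hc : 2 / p ≤ c) : Mo p r c ↔ DM p r r0 c := by
  have hpq : p.HolderConjugate (p / (p - 1)) := Real.HolderConjugate.conjExponent (by linarith)
  exact ⟨dm_of_mo hp hpq hr hr1.le hr0 hc, mo_of_dm hp hpq hr hr1 hr0 hc⟩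

end Pool.Agent.H875.TM
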