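import Pool.Agent.H875.TM.Three

set_option autoImplicit false

/-!
# Moments of zeta: shifts, lines further to the right, and back to the line
-/

namespace Pool.Agent.H875.TM

open Complex Filter Topology Set MeasureTheory Metric
open Pool.Agent.H24R2.JP (XX HH Om)
open Pool.Agent.Hp428.LS (HH_pos XX_sym)
open scoped ComplexConjugate

/-- `∫_T^{2T} |ζ(1/2 + r + i t)|^p dt ≤ T^(p (e + ε) / 2)` for large `T` -/
def Mo (p r e : ℝ) : Prop := ∀ ε : ℝ, 0 < ε → ∃ T0 : ℝ, ∀ T : ℝ, T0 ≤ T →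
  Ip p (gz (r : ℂ)) T (2 * T) ≤ Real.exp (Om T * (e + ε)) ^ p

/-- the same on the whole strip of imaginary parts `|v| ≤ R`, given line -/
def ML (p X e : ℝ) : Prop := ∀ ε R : ℝ, 0 < ε → 1 ≤ R → ∃ T0 : ℝ, ∀ T : ℝ, T0 ≤ T → ∀ v : ℝ, |v| ≤ R →
  Ip p (gz ((X : ℂ) + v * I)) T (2 * T) ≤ Real.exp (Om T * (e + ε)) ^ p

/-- the same for the completed function -/
def MQ (p X e : ℝ) : Prop := ∀ ε R : ℝ, 0 < ε → 1 ≤ R → ∃ T0 : ℝ, ∀ T : ℝ, T0 ≤ T → ∀ v : ℝ, |v| ≤ R →
  Ip p (gq ((X : ℂ) + v * I)) T (2 * T) ≤ Real.exp (Om T * (e + ε)) ^ p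

lemma gz_shift (X v τ : ℝ) : gz ((X : ℂ) + v * I) τ = gz (X : ℂ) (τ + v) := by
  unfold gz
  congr 1
  push_cast
  ring

lemma shift {p r e : ℝ} (hp : 2 ≤ p) (he : 0 ≤ e) (h : Mo p r e) : ML p r e := by
  intro ε R hε hR
  have hp0 : 0 < p := by linarith
  obtain ⟨T1, k1⟩ := h (ε / 2) (by linarith)
  obtain ⟨T2, hT2, k2⟩ := Om_large' ((Real.log 3 + (e + ε / 2)) * (2 / ε))
  refine ⟨max (2 * |T1|) (max T2 (2 * R + 4)), fun T hT v hv => ?_⟩
  have g1 : 2 * |T1| ≤ T := (le_max_left _ _).trans hT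
  have g1' : T1 ≤ T / 2 := by linarith [le_abs_self T1]
  have g2 : T2 ≤ T := ((le_max_left _ _).trans (le_max_right _ _)).trans hT
  have g3 : 2 * R + 4 ≤ T := ((le_max_right _ _).trans (le_max_right _ _)).trans hT
  have hT0 : 0 < T := by linarith
  have hO := k2 T g2
  rw [mul_div_assoc', div_le_iff₀ hε] at hO
  have hv' := abs_le.1 hv
  obtain ⟨f, hf⟩ : ∃ f : ℝ → ℝ, f = fun τ => ‖gz (r : ℂ) τ‖ ^ p := ⟨_, rfl⟩
  have hfi : ∀ a b : ℝ, 0 < a → a ≤ b → IntervalIntegrable f volume a b := fun a b ha hab => by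
    rw [hf]
    exact (cont_pow hp0.le (gz_cont (r : ℂ) (by simpa using ha))).intervalIntegrable_of_Icc hab
  have e1 : Ip p (gz ((r : ℂ) + v * I)) T (2 * T) = ∫ τ in (T + v)..(2 * T + v), f τ := by
    unfold Ip
    rw [hf, ← intervalIntegral.integral_comp_add_right (fun τ => ‖gz (r : ℂ) τ‖ ^ p) v]
    apply intervalIntegral.integral_congr
    intro τ _
    simp only [gz_shift]
  have e2 : (∫ τ in (T + v)..(2 * T + v), f τ) ≤ ∫ τ in (T / 2)..(2 * (2 * T)), f τ := by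
    apply intervalIntegral.integral_mono_interval (by linarith) (by linarith) (by linarith)
    · apply Eventually.of_forall
      intro τ
      rw [hf]
      exact Real.rpow_nonneg (norm_nonneg _) _
    · exact hfi _ _ (by linarith) (by linarith)
  have e3 : (∫ τ in (T / 2)..(2 * (2 * T)), f τ) =
      (∫ τ in (T / 2)..T, f τ) + (∫ τ in T..(2 * T), f τ) + ∫ τ in (2 * T)..(2 * (2 * T)), f τ := by
    rw [intervalIntegral.integral_add_adjacent_intervals (hfi _ _ (by linarith) (by linarith))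
      (hfi _ _ (by linarith) (by linarith)),
      intervalIntegral.integral_add_adjacent_intervals (hfi _ _ (by linarith) (by linarith))
      (hfi _ _ (by linarith) (by linarith))]
  have key : ∀ S : ℝ, T / 2 ≤ S → S ≤ 2 * T → (∫ τ in S..(2 * S), f τ) ≤
      Real.exp ((Om T + 1) * (e + ε / 2)) ^ p := by
    intro S hS1 hS2
    have h1 := k1 S (g1'.trans hS1)
    have h2 : Om S ≤ Om T + 1 := by
      have h3 : Om S ≤ Om (2 * T) := by
        unfold Om
        have := Real.log_le_log (by linarith) hS2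
        linarith
      have h4 := (Om_block (T := T) (τ := 2 * T) (by linarith) (by linarith) le_rfl).2
      linarith
    have h5 : Ip p (gz (r : ℂ)) S (2 * S) = ∫ τ in S..(2 * S), f τ := by rw [hf]; rfl
    rw [← h5]
    refine h1.trans (Real.rpow_le_rpow (Real.exp_pos _).le (Real.exp_le_exp.2 ?_) hp0.le)
    exact mul_le_mul_of_nonneg_right h2 (by linarith)
  have q1 := key (T / 2) le_rfl (by linarith)
  have q2 := key T (by linarith) (by linarith)
  have q3 := key (2 * T) (by linarith) le_rfl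
  rw [show 2 * (T / 2) = T by ring] at q1
  rw [e1]
  refine e2.trans ?_
  rw [e3]
  have h6 : 3 * Real.exp ((Om T + 1) * (e + ε / 2)) ^ p ≤ Real.exp (Om T * (e + ε)) ^ p := by
    have h7 : (3 : ℝ) ≤ 3 ^ p := by
      calc (3 : ℝ) = 3 ^ (1 : ℝ) := (Real.rpow_one 3).symm
        _ ≤ _ := Real.rpow_le_rpow_of_exponent_le (by norm_num) (by linarith)
    calc 3 * Real.exp ((Om T + 1) * (e + ε / 2)) ^ p ≤ 3 ^ p * Real.exp ((Om T + 1) * (e + ε / 2)) ^ p :=
          mul_le_mul_of_nonneg_right h7 (by positivity)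
      _ = (3 * Real.exp ((Om T + 1) * (e + ε / 2))) ^ p := (Real.mul_rpow (by norm_num) (Real.exp_pos _).le).symm
      _ ≤ _ := by
          apply Real.rpow_le_rpow (by positivity) _ hp0.le
          nth_rewrite 1 [← Real.exp_log (show (0 : ℝ) < 3 by norm_num)]
          rw [← Real.exp_add]
          apply Real.exp_le_exp.2
          linarith
  linarith

lemma exp_close {p a b K : ℝ} (hp : 0 ≤ p) {T : ℝ} (h : K ≤ Om T * (b - a)) :
    (Real.exp (Om T * a + K)) ^ p ≤ Real.exp (Om T * b) ^ p := by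
  apply Real.rpow_le_rpow (Real.exp_pos _).le _ hp
  apply Real.exp_le_exp.2
  linarith

lemma z_to_q {p X e : ℝ} (hp : 2 ≤ p) (hX : 0 ≤ X) (h : ML p X e) : MQ p X (X + e) := by
  intro ε R hε hR
  have hp0 : 0 < p := by linarith
  obtain ⟨T1, k1⟩ := h (ε / 2) R (by linarith) hR
  obtain ⟨K, T2, hK, hT2, k2⟩ := comp (X + R) (by linarith)
  obtain ⟨T3, hT3, k3⟩ := Om_large' (K * (2 / ε))
  refine ⟨max T1 (max T2 (max T3 (R + 1))), fun T hT v hv => ?_⟩
  have g1 : T1 ≤ T := (le_max_left _ _).trans hT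
  have g2 : T2 ≤ T := ((le_max_left _ _).trans (le_max_right _ _)).trans hT
  have g3 : T3 ≤ T := ((le_max_left _ _).trans ((le_max_right _ _).trans (le_max_right _ _))).trans hT
  have g4 : R + 1 ≤ T := ((le_max_right _ _).trans ((le_max_right _ _).trans (le_max_right _ _))).trans hT
  have hT0 : 0 < T := by linarith
  have hO := k3 T g3
  rw [mul_div_assoc', div_le_iff₀ hε] at hO
  have hre : ((X : ℂ) + v * I).re = X := by simp
  have him : ((X : ℂ) + v * I).im = v := by simp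
  have hnorm : ‖(X : ℂ) + v * I‖ ≤ X + R := by
    refine (norm_add_le _ _).trans ?_
    rw [norm_mul, Complex.norm_I, mul_one, Complex.norm_real, Complex.norm_real, Real.norm_eq_abs,
      Real.norm_eq_abs, abs_of_nonneg hX]
    linarith
  have hv' := (abs_le.1 hv).1
  have h1 := ip_le hp0 (by linarith : T ≤ 2 * T) (gq_cont _ hT0) (gz_cont _ (by rw [him]; linarith))
    (Real.exp_pos (Om T * ((X : ℂ) + v * I).re + K)).le (Real.exp_pos _).le
    (fun τ hτ => (k2 T g2 τ hτ _ (by rw [hre]; exact hX) hnorm).1) (k1 T g1 v hv)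
  refine h1.trans ?_
  rw [hre, ← Real.exp_add]
  apply Real.rpow_le_rpow (Real.exp_pos _).le _ hp0.le
  apply Real.exp_le_exp.2
  linarith

lemma q_to_z {p : ℝ} (hp : 2 ≤ p) (R : ℝ) (hR : 1 ≤ R) (ε : ℝ) (hε : 0 < ε) : ∃ T0 : ℝ, 1 ≤ T0 ∧
    ∀ T : ℝ, T0 ≤ T → ∀ (u : ℂ) (a : ℝ), 0 ≤ u.re → u.re ≤ R → |u.im| ≤ R →
      Ip p (gq u) T (2 * T) ≤ Real.exp (Om T * (u.re + a)) ^ p →
      Ip p (gz u) T (2 * T) ≤ Real.exp (Om T * (a + ε)) ^ p := by
  have hp0 : 0 < p := by linarith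
  obtain ⟨K, T2, hK, hT2, k2⟩ := comp (R + R) (by linarith)
  obtain ⟨T3, hT3, k3⟩ := Om_large' (K / ε)
  refine ⟨max T2 (max T3 (R + 1)), hT2.trans (le_max_left _ _), fun T hT u a hu0 hu1 hu2 h => ?_⟩
  have g2 : T2 ≤ T := (le_max_left _ _).trans hT
  have g3 : T3 ≤ T := ((le_max_left _ _).trans (le_max_right _ _)).trans hT
  have g4 : R + 1 ≤ T := ((le_max_right _ _).trans (le_max_right _ _)).trans hT
  have hT0 : 0 < T := by linarith
  have hO := k3 T g3
  rw [div_le_iff₀ hε] at hO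
  have hnorm : ‖u‖ ≤ R + R := by
    refine (Complex.norm_le_abs_re_add_abs_im u).trans ?_
    rw [abs_of_nonneg hu0]
    linarith
  have hv' := (abs_le.1 hu2).1
  have h1 := ip_le hp0 (by linarith : T ≤ 2 * T) (gz_cont u (by linarith)) (gq_cont u hT0)
    (Real.exp_pos (-(Om T * u.re) + K)).le (Real.exp_pos _).le
    (fun τ hτ => (k2 T g2 τ hτ u hu0 hnorm).2) h
  refine h1.trans ?_
  rw [← Real.exp_add]
  apply Real.rpow_le_rpow (Real.exp_pos _).le _ hp0.le
  apply Real.exp_le_exp.2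
  linarith

/-- far to the right -/
lemma far {p e : ℝ} (hp : 2 ≤ p) (he : 2 / p ≤ e) (ε R : ℝ) (hε : 0 < ε) (hR : 1 ≤ R) : ∃ T0 : ℝ, 1 ≤ T0 ∧
    ∀ T : ℝ, T0 ≤ T → ∀ u : ℂ, 1 / 2 ≤ u.re → |u.im| ≤ R →
      Ip p (gz u) T (2 * T) ≤ Real.exp (Om T * (e + ε)) ^ p := by
  have hp0 : 0 < p := by linarith
  obtain ⟨T1, hT1, k1⟩ := TC.zeta_right (ε / 4) (by linarith)
  refine ⟨max (T1 + R) (R + 4), le_trans (by linarith) (le_max_left _ _), fun T hT u hu0 hu2 => ?_⟩
  have g1 : T1 + R ≤ T := (le_max_left _ _).trans hT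
  have g2 : R + 4 ≤ T := (le_max_right _ _).trans hT
  have hT0 : 0 < T := by linarith
  have hT1' : 1 ≤ T := by linarith
  have hv' := abs_le.1 hu2
  have h3 : ∀ τ ∈ Icc T (2 * T), ‖gz u τ‖ ≤ Real.exp (Om T * ε) := by
    intro τ hτ
    have him : (1 / 2 + u + (τ : ℂ) * I).im = u.im + τ := by simp
    have h4 := k1 (1 / 2 + u + (τ : ℂ) * I) (by simp; linarith) (by rw [him]; linarith [hτ.1])
    refine h4.trans ?_
    rw [him]
    have h5 : u.im + τ ≤ T ^ 2 := by nlinarith [hτ.2]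
    have h6 : 0 ≤ u.im + τ := by linarith [hτ.1]
    calc (u.im + τ) ^ (ε / 4) ≤ (T ^ 2) ^ (ε / 4) := Real.rpow_le_rpow h6 h5 (by linarith)
      _ = Real.exp (Om T * ε) := by
          rw [Real.rpow_def_of_pos (by positivity), Real.log_pow]
          unfold Om
          congr 1
          push_cast
          ring
  have h4 := ip_const hp0 (by linarith : T ≤ 2 * T) (gz_cont u (by linarith)) h3
  refine h4.trans ?_
  have e1 : 2 * T - T = T := by ring
  rw [e1]
  have hO := Om_nonneg hT1'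
  calc T * Real.exp (Om T * ε) ^ p = Real.exp (Om T * (2 / p)) ^ p * Real.exp (Om T * ε) ^ p := by
        rw [← T_eq hp hT1']
    _ = Real.exp (Om T * (2 / p + ε)) ^ p := by
        rw [← Real.mul_rpow (Real.exp_pos _).le (Real.exp_pos _).le, ← Real.exp_add]
        congr 2
        ring
    _ ≤ _ := by
        apply Real.rpow_le_rpow (Real.exp_pos _).le _ hp0.le
        apply Real.exp_le_exp.2
        exact mul_le_mul_of_nonneg_left (by linarith) hO

/-- **All points to the right of a line.** -/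
theorem sup_right {p q : ℝ} (hp : 2 ≤ p) (hpq : p.HolderConjugate q) {r e : ℝ} (hr : 0 ≤ r) (hr1 : r ≤ 1 / 2)
    (he : 2 / p ≤ e) (h : Mo p r e) (ε R : ℝ) (hε : 0 < ε) (hR : 1 ≤ R) : ∃ T0 : ℝ, 1 ≤ T0 ∧
    ∀ T : ℝ, T0 ≤ T → ∀ u : ℂ, r ≤ u.re → |u.im| ≤ R →
      Ip p (gz u) T (2 * T) ≤ Real.exp (Om T * (e + ε)) ^ p := by
  have hp0 : 0 < p := by linarith
  have he0 : 0 ≤ e := le_trans (by positivity) he
  obtain ⟨T1, hT1, k1⟩ := far hp he ε R hε hR
  have hML1 : ML p 1 e := by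
    intro ε' R' hε' hR'
    obtain ⟨T2, hT2, k2⟩ := far hp he ε' R' hε' hR'
    refine ⟨T2, fun T hT v hv => k2 T hT _ ?_ ?_⟩
    · simp; norm_num
    · simpa using hv
  obtain ⟨T2, hT2, k2⟩ := three hp hpq (X0 := r) (X1 := 1) (a0 := r + e) (a1 := 1 + e) (κ := ε / 2) (R1 := R)
    (by linarith) le_rfl (by linarith) (by linarith) hR (z_to_q hp hr (shift hp he0 h))
    (z_to_q hp zero_le_one hML1)
  obtain ⟨T3, hT3, k3⟩ := q_to_z hp R hR (ε / 2) (by linarith)
  refine ⟨max T1 (max T2 T3), hT1.trans (le_max_left _ _), fun T hT u hu0 hu2 => ?_⟩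
  have g1 : T1 ≤ T := (le_max_left _ _).trans hT
  have g2 : T2 ≤ T := ((le_max_left _ _).trans (le_max_right _ _)).trans hT
  have g3 : T3 ≤ T := ((le_max_right _ _).trans (le_max_right _ _)).trans hT
  rcases le_or_gt (1 / 2) u.re with h1 | h1
  · exact k1 T g1 u h1 hu2
  have h4 := k2 T g2 u hu0 (by linarith) hu2
  have h5 : r + e + (1 + e - (r + e)) * ((u.re - r) / (1 - r)) + ε / 2 = u.re + (e + ε / 2) := by
    have : (1 - r) ≠ 0 := by linarith
    field_simp
    ring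
  rw [h5] at h4
  have h6 := k3 T g3 u (e + ε / 2) (hr.trans hu0) (by linarith) hu2 h4
  rwa [show e + ε / 2 + ε / 2 = e + ε by ring] at h6

/-- **Back to the line.** -/
theorem step2 {p q : ℝ} (hp : 2 ≤ p) (hpq : p.HolderConjugate q) {r h E : ℝ} (hr : 0 ≤ r) (hh : 0 < h)
    (hr1 : r + h ≤ 1 / 2) (hE : 0 ≤ E) (hM : Mo p (r + h) E) : Mo p r (E + h) := by
  intro ε hε
  have hX : 0 < r + h := by linarith
  have hq1 : MQ p (r + h) (r + h + E) := z_to_q hp hX.le (shift hp hE hM)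
  have hq0 : MQ p (-(r + h)) (r + h + E) := by
    intro ε' R' hε' hR'
    obtain ⟨T1, k1⟩ := hq1 ε' R' hε' hR'
    refine ⟨max T1 1, fun T hT v hv => ?_⟩
    have hT1 : 1 ≤ T := (le_max_right _ _).trans hT
    have h1 := k1 T ((le_max_left _ _).trans hT) v hv
    refine le_trans (le_of_eq ?_) h1
    unfold Ip
    apply intervalIntegral.integral_congr
    intro τ hτ
    rw [uIcc_of_le (by linarith)] at hτ
    have e1 : ((-(r + h) : ℝ) : ℂ) + v * I = -conj (((r + h : ℝ) : ℂ) + v * I) := by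
      rw [map_add, map_mul, Complex.conj_I, Complex.conj_ofReal, Complex.conj_ofReal]
      push_cast
      ring
    simp only [e1]
    rw [gq_sym (by linarith [hτ.1])]
  obtain ⟨T2, hT2, k2⟩ := three hp hpq (X0 := -(r + h)) (X1 := r + h) (a0 := r + h + E) (a1 := r + h + E)
    (κ := ε / 2) (R1 := 1) (by linarith) (by linarith) (by linarith) (by linarith) le_rfl hq0 hq1
  obtain ⟨T3, hT3, k3⟩ := q_to_z hp 1 le_rfl (ε / 2) (by linarith)
  refine ⟨max T2 T3, fun T hT => ?_⟩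
  have g2 : T2 ≤ T := (le_max_left _ _).trans hT
  have g3 : T3 ≤ T := (le_max_right _ _).trans hT
  have h4 := k2 T g2 (r : ℂ) (by rw [ofReal_re]; linarith) (by rw [ofReal_re]; linarith) (by simp)
  rw [sub_self, zero_mul, add_zero] at h4
  have h6 := k3 T g3 (r : ℂ) (E + h + ε / 2) (by rw [ofReal_re]; exact hr) (by rw [ofReal_re]; linarith) (by simp)
    (by
      rw [ofReal_re]
      refine h4.trans (le_of_eq ?_)
      congr 3
      ring)
  refine h6.trans (le_of_eq ?_)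
  congr 3
  ring

end Pool.Agent.H875.TM
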