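import Mathlib

set_option autoImplicit false

/-!
# Weighted vertical integrals of holomorphic functions, Hölder's inequality and duality
-/

namespace Pool.Agent.H875.TM

open Complex Filter Topology Set MeasureTheory Metric

/-- the functional -/
noncomputable def Fn (Φ : ℂ → ℂ) (w : ℝ → ℂ) (a b : ℝ) (s : ℂ) : ℂ :=
  ∫ τ in a..b, w τ * Φ (s + (τ : ℂ) * I)

lemma pderiv {Φ : ℂ → ℂ} {U : Set ℂ} (hU : IsOpen U) (hΦ : DifferentiableOn ℂ Φ U) {w : ℝ → ℂ} {a b : ℝ}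
    (hab : a ≤ b) (hw : ContinuousOn w (Icc a b)) {s : ℂ} (hs : ∀ τ ∈ Icc a b, s + (τ : ℂ) * I ∈ U) :
    HasDerivAt (Fn Φ w a b) (Fn (deriv Φ) w a b s) s := by
  have hd : DifferentiableOn ℂ (deriv Φ) U := hΦ.deriv hU
  have hseg : Continuous fun τ : ℝ => s + (τ : ℂ) * I := by fun_prop
  have hK : IsCompact ((fun τ : ℝ => s + (τ : ℂ) * I) '' Icc a b) := isCompact_Icc.image hseg
  obtain ⟨δ, hδ, hsub⟩ := hK.exists_cthickening_subset_open hU (by rintro _ ⟨τ, hτ, rfl⟩; exact hs τ hτ)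
  have hKc : IsCompact (cthickening δ ((fun τ : ℝ => s + (τ : ℂ) * I) '' Icc a b)) := hK.cthickening
  obtain ⟨C, hC⟩ := hKc.bddAbove_image (hd.continuousOn.mono hsub).norm
  obtain ⟨W, hW⟩ := isCompact_Icc.bddAbove_image hw.norm
  have hmem : ∀ z ∈ ball s δ, ∀ τ ∈ Icc a b,
      z + (τ : ℂ) * I ∈ cthickening δ ((fun τ : ℝ => s + (τ : ℂ) * I) '' Icc a b) := by
    intro z hz τ hτ
    refine mem_cthickening_of_dist_le _ (s + (τ : ℂ) * I) δ _ ⟨τ, hτ, rfl⟩ ?_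
    rw [dist_eq_norm, add_sub_add_right_eq_sub, ← dist_eq_norm]
    exact (mem_ball.1 hz).le
  have hcont : ∀ {Ψ : ℂ → ℂ}, ContinuousOn Ψ U → ∀ z ∈ ball s δ,
      ContinuousOn (fun τ : ℝ => w τ * Ψ (z + (τ : ℂ) * I)) (Icc a b) := by
    intro Ψ hΨ z hz
    exact hw.mul (hΨ.comp (by fun_prop) fun τ hτ => hsub (hmem z hz τ hτ))
  have hms : ∀ {G : ℝ → ℂ}, ContinuousOn G (Icc a b) →
      AEStronglyMeasurable G ((volume : Measure ℝ).restrict (uIoc a b)) := by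
    intro G hG
    rw [uIoc_of_le hab]
    exact (hG.mono Ioc_subset_Icc_self).aestronglyMeasurable measurableSet_Ioc
  have h := intervalIntegral.hasDerivAt_integral_of_dominated_loc_of_deriv_le (𝕜 := ℂ)
    (μ := (volume : Measure ℝ)) (a := a) (b := b) (x₀ := s) (s := ball s δ)
    (F := fun z τ => w τ * Φ (z + (τ : ℂ) * I))
    (F' := fun z τ => w τ * deriv Φ (z + (τ : ℂ) * I))
    (bound := fun _ => W * C)
    (ball_mem_nhds s hδ)
    (by
      filter_upwards [ball_mem_nhds s hδ] with z hz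
      exact hms (hcont hΦ.continuousOn z hz))
    ((hcont hΦ.continuousOn s (mem_ball_self hδ)).intervalIntegrable_of_Icc hab)
    (hms (hcont hd.continuousOn s (mem_ball_self hδ)))
    (Eventually.of_forall fun τ hτ z hz => by
      rw [uIoc_of_le hab] at hτ
      have hτ' : τ ∈ Icc a b := Ioc_subset_Icc_self hτ
      rw [norm_mul]
      have h1 : ‖w τ‖ ≤ W := hW ⟨τ, hτ', rfl⟩
      have h2 : ‖deriv Φ (z + (τ : ℂ) * I)‖ ≤ C := hC ⟨_, hmem z hz τ hτ', rfl⟩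
      exact mul_le_mul h1 h2 (norm_nonneg _) ((norm_nonneg _).trans h1))
    intervalIntegrable_const
    (Eventually.of_forall fun τ hτ z hz => by
      rw [uIoc_of_le hab] at hτ
      have hτ' : τ ∈ Icc a b := Ioc_subset_Icc_self hτ
      have h1 : HasDerivAt (fun s : ℂ => s + (τ:ℂ) * Complex.I) 1 z :=
        (hasDerivAt_id z).add_const _
      have h2 := ((hΦ.differentiableAt (hU.mem_nhds (hsub (hmem z hz τ hτ')))).hasDerivAt).comp z h1
      rw [mul_one] at h2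
      exact h2.const_mul (w τ))
  exact h.2

lemma diffOn_iter {Φ : ℂ → ℂ} {U : Set ℂ} (hU : IsOpen U) (hΦ : DifferentiableOn ℂ Φ U) (n : ℕ) :
    DifferentiableOn ℂ (iteratedDeriv n Φ) U := by
  induction n with
  | zero => simpa using hΦ
  | succ n ih => rw [iteratedDeriv_succ]; exact ih.deriv hU

lemma piter {Φ : ℂ → ℂ} {U V : Set ℂ} (hU : IsOpen U) (hV : IsOpen V) (hΦ : DifferentiableOn ℂ Φ U)
    {w : ℝ → ℂ} {a b : ℝ} (hab : a ≤ b) (hw : ContinuousOn w (Icc a b))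
    (hUV : ∀ s ∈ V, ∀ τ ∈ Icc a b, s + (τ : ℂ) * I ∈ U) (n : ℕ) :
    ∀ s ∈ V, iteratedDeriv n (Fn Φ w a b) s = Fn (iteratedDeriv n Φ) w a b s := by
  induction n with
  | zero => intro s _; simp
  | succ n ih =>
    intro s hs
    rw [iteratedDeriv_succ, iteratedDeriv_succ]
    have h1 : iteratedDeriv n (Fn Φ w a b) =ᶠ[𝓝 s] Fn (iteratedDeriv n Φ) w a b := by
      filter_upwards [hV.mem_nhds hs] with z hz
      exact ih z hz
    rw [h1.deriv_eq]
    exact (pderiv hU (diffOn_iter hU hΦ n) hab hw (hUV s hs)).deriv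

lemma fn_diffOn {Φ : ℂ → ℂ} {U V : Set ℂ} (hU : IsOpen U) (hΦ : DifferentiableOn ℂ Φ U)
    {w : ℝ → ℂ} {a b : ℝ} (hab : a ≤ b) (hw : ContinuousOn w (Icc a b))
    (hUV : ∀ s ∈ V, ∀ τ ∈ Icc a b, s + (τ : ℂ) * I ∈ U) : DifferentiableOn ℂ (Fn Φ w a b) V :=
  fun s hs => (pderiv hU hΦ hab hw (hUV s hs)).differentiableAt.differentiableWithinAt

/-- the integral of the `p`-th power -/
noncomputable def Ip (p : ℝ) (g : ℝ → ℂ) (a b : ℝ) : ℝ := ∫ τ in a..b, ‖g τ‖ ^ p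

lemma ip_nonneg {p a b : ℝ} (hab : a ≤ b) (g : ℝ → ℂ) : 0 ≤ Ip p g a b :=
  intervalIntegral.integral_nonneg hab fun _ _ => Real.rpow_nonneg (norm_nonneg _) _

lemma cont_pow {p a b : ℝ} (hp : 0 ≤ p) {g : ℝ → ℂ} (hg : ContinuousOn g (Icc a b)) :
    ContinuousOn (fun τ => ‖g τ‖ ^ p) (Icc a b) :=
  hg.norm.rpow_const fun _ _ => Or.inr hp

lemma memLp {a b : ℝ} {f : ℝ → ℝ} (hf : ContinuousOn f (Icc a b)) (r : ENNReal) :
    MemLp f r ((volume : Measure ℝ).restrict (Ioc a b)) := by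
  obtain ⟨C, hC⟩ := isCompact_Icc.bddAbove_image hf.norm
  refine MemLp.of_bound ((hf.mono Ioc_subset_Icc_self).aestronglyMeasurable measurableSet_Ioc) C ?_
  rw [ae_restrict_iff' measurableSet_Ioc]
  exact Eventually.of_forall fun τ hτ => hC ⟨τ, Ioc_subset_Icc_self hτ, rfl⟩

lemma holder {p q : ℝ} (hpq : p.HolderConjugate q) {w g : ℝ → ℂ} {a b : ℝ} (hab : a ≤ b)
    (hw : ContinuousOn w (Icc a b)) (hg : ContinuousOn g (Icc a b)) :
    ‖∫ τ in a..b, w τ * g τ‖ ≤ Ip q w a b ^ (1 / q) * Ip p g a b ^ (1 / p) := by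
  have h1 : ‖∫ τ in a..b, w τ * g τ‖ ≤ ∫ τ in a..b, ‖w τ * g τ‖ :=
    intervalIntegral.norm_integral_le_integral_norm hab
  refine h1.trans ?_
  have h2 := integral_mul_le_Lp_mul_Lq_of_nonneg (μ := (volume : Measure ℝ).restrict (Ioc a b)) hpq
    (f := fun τ => ‖g τ‖) (g := fun τ => ‖w τ‖)
    (Eventually.of_forall fun _ => norm_nonneg _) (Eventually.of_forall fun _ => norm_nonneg _)
    (memLp hg.norm _) (memLp hw.norm _)
  unfold Ip
  rw [intervalIntegral.integral_of_le hab, intervalIntegral.integral_of_le hab,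
    intervalIntegral.integral_of_le hab]
  have e : (fun τ => ‖w τ * g τ‖) = fun τ => ‖g τ‖ * ‖w τ‖ := by
    funext τ
    rw [norm_mul, mul_comm]
  rw [e, mul_comm ((∫ (τ : ℝ) in Ioc a b, ‖w τ‖ ^ q) ^ (1 / q))]
  exact h2

lemma dual {p q : ℝ} (hp : 2 ≤ p) (hpq : p.HolderConjugate q) {g : ℝ → ℂ} {a b : ℝ} (hab : a ≤ b)
    (hg : ContinuousOn g (Icc a b)) {X : ℝ} (hX : 0 ≤ X)
    (h : ∀ w : ℝ → ℂ, ContinuousOn w (Icc a b) →
      ‖∫ τ in a..b, w τ * g τ‖ ≤ Ip q w a b ^ (1 / q) * X) : Ip p g a b ≤ X ^ p := by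
  have hp0 : 0 < p := by linarith
  obtain ⟨w, hw⟩ : ∃ w : ℝ → ℂ, w = fun τ => (starRingEnd ℂ) (g τ) * ((‖g τ‖ ^ (p - 2) : ℝ) : ℂ) := ⟨_, rfl⟩
  have hwc : ContinuousOn w (Icc a b) := by
    rw [hw]
    exact (Complex.continuous_conj.comp_continuousOn hg).mul
      (Complex.continuous_ofReal.comp_continuousOn (cont_pow (by linarith) hg))
  have h1 := h w hwc
  have e1 : (∫ τ in a..b, w τ * g τ) = ((Ip p g a b : ℝ) : ℂ) := by
    unfold Ip
    rw [← intervalIntegral.integral_ofReal]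
    apply intervalIntegral.integral_congr
    intro τ _
    simp only [hw]
    have h3 : (starRingEnd ℂ) (g τ) * ((‖g τ‖ ^ (p - 2) : ℝ) : ℂ) * g τ =
        ((starRingEnd ℂ) (g τ) * g τ) * ((‖g τ‖ ^ (p - 2) : ℝ) : ℂ) := by ring
    rw [h3, Complex.conj_mul']
    rw [← Complex.ofReal_pow, ← Complex.ofReal_mul]
    congr 1
    rcases eq_or_ne (‖g τ‖) 0 with h0 | h0
    · rw [h0]
      rw [Real.zero_rpow hp0.ne']
      ring
    · have h4 : 0 < ‖g τ‖ := lt_of_le_of_ne (norm_nonneg _) (Ne.symm h0)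
      rw [← Real.rpow_natCast, ← Real.rpow_add h4]
      congr 1
      push_cast
      ring
  have e2 : Ip q w a b = Ip p g a b := by
    unfold Ip
    apply intervalIntegral.integral_congr
    intro τ _
    simp only [hw]
    rw [norm_mul, Complex.norm_real, RCLike.norm_conj, Real.norm_of_nonneg (Real.rpow_nonneg (norm_nonneg _) _)]
    rcases eq_or_ne (‖g τ‖) 0 with h0 | h0
    · rw [h0, zero_mul, Real.zero_rpow hpq.symm.pos.ne', Real.zero_rpow hp0.ne']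
    · have h4 : 0 < ‖g τ‖ := lt_of_le_of_ne (norm_nonneg _) (Ne.symm h0)
      have h5 : ‖g τ‖ * ‖g τ‖ ^ (p - 2) = ‖g τ‖ ^ (p - 1) := by
        nth_rewrite 1 [← Real.rpow_one ‖g τ‖]
        rw [← Real.rpow_add h4]
        congr 1
        ring
      rw [h5, ← Real.rpow_mul h4.le]
      congr 1
      have := hpq.sub_one_mul_conj
      linarith
  rw [e1, e2, Complex.norm_real, Real.norm_of_nonneg (ip_nonneg hab g)] at h1
  obtain ⟨J, hJ⟩ : ∃ J, J = Ip p g a b := ⟨_, rfl⟩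
  have hJ0 : 0 ≤ J := by rw [hJ]; exact ip_nonneg hab g
  rw [← hJ] at h1 ⊢
  rcases eq_or_lt_of_le hJ0 with h6 | h6
  · rw [← h6]; exact Real.rpow_nonneg hX _
  · have h7 : J ^ (1 / q) * J ^ (1 / p) = J := by
      rw [← Real.rpow_add h6, add_comm]
      have : 1 / p + 1 / q = 1 := by
        have := hpq.inv_add_inv_eq_one
        rw [one_div, one_div]; exact this
      rw [this, Real.rpow_one]
    have h8 : 0 < J ^ (1 / q) := Real.rpow_pos_of_pos h6 _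
    have h9 : J ^ (1 / p) ≤ X := by
      have h10 : J ^ (1 / q) * J ^ (1 / p) ≤ J ^ (1 / q) * X := by rw [h7]; exact h1
      exact le_of_mul_le_mul_left h10 h8
    calc J = (J ^ (1 / p)) ^ p := by
          rw [← Real.rpow_mul hJ0, one_div, inv_mul_cancel₀ hp0.ne', Real.rpow_one]
      _ ≤ X ^ p := Real.rpow_le_rpow (Real.rpow_nonneg hJ0 _) h9 hp0.le

end Pool.Agent.H875.TM
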