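import Pool.Agent.H875.TM.Fin

set_option autoImplicit false

/-!
# Moments of zeta up to powers of the logarithm: from the line to the derivatives
-/

namespace Pool.Agent.H875.TM

open Complex Filter Topology Set MeasureTheory Metric
open Pool.Agent.H24R2.JP (XX HH Om)
open scoped ComplexConjugate

/-- pointwise bounds -/
lemma zpt {Y : ℝ} (hY : 1 / 2 ≤ Y) (hY1 : Y ≤ 1) (ε : ℝ) (hε : 0 < ε) : ∃ T0 : ℝ, 1 ≤ T0 ∧ ∀ s : ℂ,
    1 / 2 - Y ≤ s.re → T0 ≤ s.im → ‖riemannZeta s‖ ≤ s.im ^ (Y + ε) := by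
  obtain ⟨T1, hT1, h1⟩ := HD.gup (b := 1 / 2) (by norm_num) le_rfl (Pool.Agent.Hp428.LS.ex_big le_rfl) ε hε
  obtain ⟨T2, hT2, h2⟩ := TC.absorb 2 (Y + ε) (by linarith)
  refine ⟨max T1 T2, le_trans (by linarith) (le_max_left _ _), fun s hs hT => ?_⟩
  have g1 : T1 ≤ s.im := (le_max_left _ _).trans hT
  have g2 : T2 ≤ s.im := (le_max_right _ _).trans hT
  have hp : 0 < s.im := by linarith
  rcases le_or_gt 2 s.re with h3 | h3
  · exact (TC.zeta_right2 s h3).trans (h2 _ g2)
  · have h4 := h1 s.im g1 (((1 / 2 - s.re : ℝ)) : ℂ) (by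
      rw [Complex.norm_real, Real.norm_eq_abs, abs_le]
      constructor <;> linarith)
    rw [Complex.ofReal_re] at h4
    have e1 : HD.P (1 / 2) (1 / 2 - s.re) ≤ Y := by
      unfold HD.P
      have h5 : max |1 / 2 - s.re| (1 / 2) ≤ 2 * Y - (1 / 2 - s.re) := by
        apply max_le
        · rw [abs_le]
          constructor <;> linarith
        · linarith
      linarith
    have e2 : HD.g s.im (((1 / 2 - s.re : ℝ)) : ℂ) = riemannZeta s := by
      unfold HD.g
      congr 1
      apply Complex.ext <;> simp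
    rw [e2] at h4
    refine h4.trans ?_
    rw [Real.rpow_def_of_pos hp]
    apply Real.exp_le_exp.2
    have h6 : 0 ≤ Real.log s.im := Real.log_nonneg (by linarith)
    exact mul_le_mul_of_nonneg_left (by linarith) h6

/-- the bound on the line -/
def LA (p A : ℝ) : Prop := ∃ C T0 : ℝ, 0 ≤ C ∧ ∀ T : ℝ, T0 ≤ T →
  Ip p (gz 0) T (2 * T) ≤ C * (T * Real.log T ^ A)

lemma hold3 {p q : ℝ} (hpq : p.HolderConjugate q) {w g : ℝ → ℂ} {a b F : ℝ} (hab : a ≤ b)
    (hw : ContinuousOn w (Icc a b)) (hg : ContinuousOn g (Icc a b)) (h : Ip p g a b ≤ F) :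
    ‖∫ τ in a..b, w τ * g τ‖ ≤ Ip q w a b ^ (1 / q) * F ^ (1 / p) := by
  refine (holder hpq hab hw hg).trans ?_
  apply mul_le_mul_of_nonneg_left _ (Real.rpow_nonneg (ip_nonneg hab w) _)
  have hp0 : 0 < p := hpq.pos
  exact Real.rpow_le_rpow (ip_nonneg hab g) h (by positivity)

/-- large shifts -/
lemma shift_log {p A : ℝ} (hp : 2 ≤ p) (hA : 0 ≤ A) (h : LA p A) : ∃ K T0 : ℝ, 1 ≤ K ∧ 4 ≤ T0 ∧
    ∀ T : ℝ, T0 ≤ T → ∀ v : ℝ, |v| ≤ T / 2 →
      Ip p (gz ((v : ℂ) * I)) T (2 * T) ≤ K * (T * Real.log T ^ A) := by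
  have hp0 : 0 < p := by linarith
  obtain ⟨C, T1, hC, k1⟩ := h
  refine ⟨max 1 (4 * C * 2 ^ A), max (2 * |T1|) 4, le_max_left _ _, le_max_right _ _, fun T hT v hv => ?_⟩
  have g1 : 2 * |T1| ≤ T := (le_max_left _ _).trans hT
  have g1' : T1 ≤ T / 2 := by linarith [le_abs_self T1]
  have g3 : 4 ≤ T := (le_max_right _ _).trans hT
  have hT0 : 0 < T := by linarith
  have hv' := abs_le.1 hv
  obtain ⟨f, hf⟩ : ∃ f : ℝ → ℝ, f = fun τ => ‖gz 0 τ‖ ^ p := ⟨_, rfl⟩
  have hfi : ∀ a b : ℝ, 0 < a → a ≤ b → IntervalIntegrable f volume a b := fun a b ha hab => by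
    rw [hf]
    exact (cont_pow hp0.le (gz_cont 0 (by simpa using ha))).intervalIntegrable_of_Icc hab
  have e1 : Ip p (gz ((v : ℂ) * I)) T (2 * T) = ∫ τ in (T + v)..(2 * T + v), f τ := by
    unfold Ip
    rw [hf, ← intervalIntegral.integral_comp_add_right (fun τ => ‖gz 0 τ‖ ^ p) v]
    apply intervalIntegral.integral_congr
    intro τ _
    have e := gz_shift 0 v τ
    rw [Complex.ofReal_zero, zero_add] at e
    simp only [e]
  have e2 : (∫ τ in (T + v)..(2 * T + v), f τ) ≤ ∫ τ in (T / 2)..(2 * (2 * T)), f τ := by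
    apply intervalIntegral.integral_mono_interval (by linarith) (by linarith) (by linarith)
    · apply Eventually.of_forall
      intro τ
      rw [hf]
      exact Real.rpow_nonneg (norm_nonneg _) _
    · exact hfi _ _ (by linarith) (by linarith)
  have e3 : (∫ τ in (T / 2)..(2 * (2 * T)), f τ) =
      (∫ τ in (T / 2)..T, f τ) + (∫ τ in T..(2 * T), f τ) + ∫ τ in (2 * T)..(2 * (2 * T)), f τ := by
    rw [intervalIntegral.integral_add_adjacent_intervals (hfi _ _ (by linarith) (by linarith))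
      (hfi _ _ (by linarith) (by linarith)),
      intervalIntegral.integral_add_adjacent_intervals (hfi _ _ (by linarith) (by linarith))
      (hfi _ _ (by linarith) (by linarith))]
  have hL1 : 1 ≤ Real.log T := by
    rw [Real.le_log_iff_exp_le hT0]
    have := Real.exp_one_lt_d9
    linarith
  have key : ∀ S : ℝ, T / 2 ≤ S → S ≤ 2 * T → (∫ τ in S..(2 * S), f τ) ≤
      C * (S * (2 * Real.log T) ^ A) := by
    intro S hS1 hS2
    have h1 := k1 S (g1'.trans hS1)
    have h5 : Ip p (gz 0) S (2 * S) = ∫ τ in S..(2 * S), f τ := by rw [hf]; rfl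
    rw [← h5]
    refine h1.trans ?_
    apply mul_le_mul_of_nonneg_left _ hC
    apply mul_le_mul_of_nonneg_left _ (by linarith)
    apply Real.rpow_le_rpow (Real.log_nonneg (by linarith)) _ hA
    have h6 : Real.log S ≤ Real.log (T ^ 2) := Real.log_le_log (by linarith) (by nlinarith)
    rw [Real.log_pow] at h6
    exact_mod_cast h6
  have q1 := key (T / 2) le_rfl (by linarith)
  have q2 := key T (by linarith) (by linarith)
  have q3 := key (2 * T) (by linarith) le_rfl
  rw [show 2 * (T / 2) = T by ring] at q1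
  rw [e1]
  refine e2.trans ?_
  rw [e3]
  rw [Real.mul_rpow (by norm_num) (by linarith)] at q1 q2 q3
  have hLA : 0 ≤ Real.log T ^ A := Real.rpow_nonneg (by linarith) _
  have h2A : (0 : ℝ) < 2 ^ A := by positivity
  have h7 : 4 * C * 2 ^ A * (T * Real.log T ^ A) ≤ max 1 (4 * C * 2 ^ A) * (T * Real.log T ^ A) :=
    mul_le_mul_of_nonneg_right (le_max_right _ _) (by positivity)
  have h8 : 0 ≤ C * (T * (2 ^ A * Real.log T ^ A)) := by positivity
  linarith

/-- **All points to the right, up to a constant.** -/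
theorem right_log {p q A : ℝ} (hp : 2 ≤ p) (hpq : p.HolderConjugate q) (hA : 0 ≤ A) (h : LA p A) (R : ℝ)
    (hR : 1 ≤ R) : ∃ K T0 : ℝ, 1 ≤ K ∧ 4 ≤ T0 ∧ ∀ T : ℝ, T0 ≤ T → ∀ u : ℂ, 0 ≤ u.re → u.re ≤ R → |u.im| ≤ R →
      Ip p (gz u) T (2 * T) ≤ K * (T * Real.log T ^ A) := by
  have hp0 : 0 < p := by linarith
  obtain ⟨K1, T1, hK1, hT1, k1⟩ := shift_log hp hA h
  obtain ⟨T2, hT2, k2⟩ := zpt (Y := 1 / 2) le_rfl (by norm_num) (1 / 2) (by norm_num)
  obtain ⟨X, hX⟩ : ∃ X : ℝ, X = R + 2 := ⟨_, rfl⟩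
  refine ⟨(2 * Real.exp (X ^ 2)) ^ p * K1, max T1 (max (2 * T2) (4 * R + 48)), ?_, hT1.trans (le_max_left _ _),
    fun T hT u hu0 hu1 hu2 => ?_⟩
  · have h1 : 1 ≤ 2 * Real.exp (X ^ 2) := by
      have := Real.one_le_exp (sq_nonneg X)
      linarith
    have h2 : 1 ≤ (2 * Real.exp (X ^ 2)) ^ p := Real.one_le_rpow h1 hp0.le
    nlinarith
  have g1 : T1 ≤ T := (le_max_left _ _).trans hT
  have g2 : 2 * T2 ≤ T := ((le_max_left _ _).trans (le_max_right _ _)).trans hT
  have g3 : 4 * R + 48 ≤ T := ((le_max_right _ _).trans (le_max_right _ _)).trans hT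
  have hT0 : 0 < T := by linarith
  have hab : T ≤ 2 * T := by linarith
  have hL1 : 1 ≤ Real.log T := by
    rw [Real.le_log_iff_exp_le hT0]
    have := Real.exp_one_lt_d9
    linarith
  have hLA : 1 ≤ Real.log T ^ A := Real.one_le_rpow hL1 hA
  obtain ⟨F, hF⟩ : ∃ F : ℝ, F = K1 * (T * Real.log T ^ A) := ⟨_, rfl⟩
  have hTF : T ≤ F := by
    rw [hF]
    have : T ≤ T * Real.log T ^ A := le_mul_of_one_le_right hT0.le hLA
    nlinarith
  have hF0 : 0 < F := by linarith
  have hFp : 0 < F ^ (1 / p) := Real.rpow_pos_of_pos hF0 _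
  have hre : 0 ≤ 2 * Real.exp (X ^ 2) * F ^ (1 / p) := by positivity
  have hgoal : (2 * Real.exp (X ^ 2)) ^ p * K1 * (T * Real.log T ^ A) = (2 * Real.exp (X ^ 2) * F ^ (1 / p)) ^ p := by
    rw [Real.mul_rpow (by positivity) hFp.le, ← Real.rpow_mul hF0.le, one_div, inv_mul_cancel₀ hp0.ne',
      Real.rpow_one, hF]
    ring
  have hu2' := abs_le.1 hu2
  rw [hgoal]
  refine dual hp hpq hab (gz_cont u (by linarith)) hre fun w hw => ?_
  obtain ⟨W, hW⟩ : ∃ W, W = Ip q w T (2 * T) ^ (1 / q) := ⟨_, rfl⟩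
  have hW0 : 0 ≤ W := by rw [hW]; exact Real.rpow_nonneg (ip_nonneg hab w) _
  obtain ⟨H, hH⟩ : ∃ H : ℂ → ℂ, H = fun z => Fn riemannZeta w T (2 * T) (1 / 2 + z) := ⟨_, rfl⟩
  have hHz : ∀ z : ℂ, H z = ∫ τ in T..(2 * T), w τ * gz z τ := by
    intro z
    rw [hH]
    rfl
  obtain ⟨G, hG⟩ : ∃ G : ℂ → ℂ, G = fun z => H z * cexp ((z - u) ^ 2) := ⟨_, rfl⟩
  obtain ⟨Q, hQ⟩ : ∃ Q : Set ℂ, Q = {z : ℂ | 0 ≤ z.re ∧ z.re ≤ X ∧ |z.im| ≤ T / 2} := ⟨_, rfl⟩
  obtain ⟨O, hO⟩ : ∃ O : Set ℂ, O = {z : ℂ | 0 < z.re ∧ z.re < X ∧ |z.im| < T / 2} := ⟨_, rfl⟩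
  have hOo : IsOpen O := by
    rw [hO]
    exact (isOpen_lt continuous_const Complex.continuous_re).inter
      ((isOpen_lt Complex.continuous_re continuous_const).inter
        (isOpen_lt Complex.continuous_im.abs continuous_const))
  have hQc : IsClosed Q := by
    rw [hQ]
    exact (isClosed_le continuous_const Complex.continuous_re).inter
      ((isClosed_le Complex.continuous_re continuous_const).inter
        (isClosed_le Complex.continuous_im.abs continuous_const))
  have hOQ : O ⊆ Q := by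
    rw [hO, hQ]
    exact fun z hz => ⟨hz.1.le, hz.2.1.le, hz.2.2.le⟩
  have hcl : closure O ⊆ Q := closure_minimal hOQ hQc
  have hQb : Bornology.IsBounded Q := by
    rw [Metric.isBounded_iff_subset_closedBall 0]
    refine ⟨X + T / 2, fun z hz => ?_⟩
    rw [hQ] at hz
    rw [mem_closedBall, dist_zero_right]
    refine (Complex.norm_le_abs_re_add_abs_im z).trans ?_
    rw [abs_of_nonneg hz.1]
    linarith [hz.2.1, hz.2.2]
  have hGd : DifferentiableOn ℂ G Q := by
    rw [hG, hH]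
    intro z hz
    rw [hQ] at hz
    have h5 : (1 / 2 + z) ∈ V0 T := by
      change |(1 / 2 + z).im| < T - 1
      have : (1 / 2 + z : ℂ).im = z.im := by simp
      rw [this]
      linarith [hz.2.2]
    have h6 : DifferentiableAt ℂ (Fn riemannZeta w T (2 * T)) (1 / 2 + z) :=
      (pderiv U0_open zeta_U0 hab hw (UV _ h5)).differentiableAt
    have h7 : DifferentiableAt ℂ (fun z : ℂ => Fn riemannZeta w T (2 * T) (1 / 2 + z)) z :=
      h6.comp z (by fun_prop : DifferentiableAt ℂ (fun z : ℂ => 1 / 2 + z) z)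
    exact (h7.mul (by fun_prop)).differentiableWithinAt
  have hexp : ∀ z : ℂ, ‖cexp ((z - u) ^ 2)‖ = Real.exp ((z.re - u.re) ^ 2 - (z.im - u.im) ^ 2) := by
    intro z
    rw [Complex.norm_exp]
    congr 1
    rw [sq, Complex.mul_re, Complex.sub_re, Complex.sub_im]
    ring
  have hbd : ∀ z ∈ frontier O, ‖G z‖ ≤ W * (2 * Real.exp (X ^ 2) * F ^ (1 / p)) := by
    intro z hz
    have hzQ : z ∈ Q := hcl (frontier_subset_closure hz)
    have hzO : z ∉ O := by
      intro h1
      have h2 := hOo.frontier_eq ▸ hz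
      exact h2.2 h1
    rw [hQ] at hzQ
    obtain ⟨z1, z2, z3⟩ := hzQ
    rw [hG]
    simp only [norm_mul, hexp]
    have hx : (z.re - u.re) ^ 2 ≤ X ^ 2 := by
      apply sq_le_sq'
      · linarith
      · linarith
    have z3' := abs_le.1 z3
    have hgc : ContinuousOn (gz z) (Icc T (2 * T)) := gz_cont z (by linarith)
    have fin : ∀ B : ℝ, 0 ≤ B → ‖H z‖ ≤ W * B → B ≤ 2 * F ^ (1 / p) →
        ‖H z‖ * Real.exp ((z.re - u.re) ^ 2 - (z.im - u.im) ^ 2) ≤ W * (2 * Real.exp (X ^ 2) * F ^ (1 / p)) := by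
      intro B hB h1 h2
      have h3 : Real.exp ((z.re - u.re) ^ 2 - (z.im - u.im) ^ 2) ≤ Real.exp (X ^ 2) :=
        Real.exp_le_exp.2 (by linarith [sq_nonneg (z.im - u.im)])
      calc ‖H z‖ * Real.exp ((z.re - u.re) ^ 2 - (z.im - u.im) ^ 2) ≤ (W * B) * Real.exp (X ^ 2) :=
            mul_le_mul h1 h3 (Real.exp_pos _).le (by positivity)
        _ ≤ (W * (2 * F ^ (1 / p))) * Real.exp (X ^ 2) :=
            mul_le_mul_of_nonneg_right (mul_le_mul_of_nonneg_left h2 hW0) (Real.exp_pos _).le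
        _ = _ := by ring
    rcases eq_or_lt_of_le z1 with c1 | c1
    · have e1 : z = ((z.im : ℝ) : ℂ) * I := by
        apply Complex.ext <;> simp [← c1]
      have h1 := k1 T g1 z.im z3
      rw [← e1, ← hF] at h1
      refine fin (F ^ (1 / p)) hFp.le ?_ (by linarith)
      rw [hHz, hW]
      exact hold3 hpq hab hw hgc h1
    rcases eq_or_lt_of_le z2 with c2 | c2
    · have h1 := ip_const (p := p) (E := 2) hp0 hab hgc (fun τ _ => by
        unfold gz
        apply TC.zeta_right2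
        simp
        linarith)
      rw [show 2 * T - T = T by ring] at h1
      refine fin (2 * F ^ (1 / p)) (by positivity) ?_ le_rfl
      rw [hHz, hW]
      refine (hold3 hpq hab hw hgc h1).trans ?_
      apply mul_le_mul_of_nonneg_left _ (Real.rpow_nonneg (ip_nonneg hab w) _)
      rw [Real.mul_rpow hT0.le (by positivity), ← Real.rpow_mul (by norm_num), mul_one_div_cancel hp0.ne',
        Real.rpow_one, mul_comm]
      apply mul_le_mul_of_nonneg_left _ (by norm_num)
      exact Real.rpow_le_rpow hT0.le hTF (by positivity)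
    · have c3 : |z.im| = T / 2 := by
        rcases eq_or_lt_of_le z3 with h1 | h1
        · exact h1
        · exfalso
          apply hzO
          rw [hO]
          exact ⟨c1, c2, h1⟩
      have h1 := ip_const (p := p) (E := 3 * T) hp0 hab hgc (fun τ hτ => by
        have him : (1 / 2 + z + (τ : ℂ) * I).im = z.im + τ := by simp
        have h2 := k2 (1 / 2 + z + (τ : ℂ) * I) (by simp; linarith) (by rw [him]; linarith [hτ.1])
        unfold gz
        refine h2.trans ?_
        rw [him]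
        norm_num
        linarith [hτ.2])
      rw [show 2 * T - T = T by ring] at h1
      have h4 : ‖H z‖ ≤ W * (3 * T * F ^ (1 / p)) := by
        rw [hHz, hW]
        refine (hold3 hpq hab hw hgc h1).trans ?_
        apply mul_le_mul_of_nonneg_left _ (Real.rpow_nonneg (ip_nonneg hab w) _)
        rw [Real.mul_rpow hT0.le (by positivity), ← Real.rpow_mul (by positivity), mul_one_div_cancel hp0.ne',
          Real.rpow_one, mul_comm]
        apply mul_le_mul_of_nonneg_left _ (by positivity)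
        exact Real.rpow_le_rpow hT0.le hTF (by positivity)
      have h5 : (T / 4) ^ 2 ≤ (z.im - u.im) ^ 2 := by
        rw [← sq_abs (z.im - u.im)]
        apply pow_le_pow_left₀ (by positivity)
        have h6 : |z.im| ≤ |z.im - u.im| + |u.im| := by
          have := abs_add_le (z.im - u.im) u.im
          rwa [sub_add_cancel] at this
        linarith
      have h7 : 3 * T * Real.exp (-(T / 4) ^ 2) ≤ 1 := by
        have h8 := Real.add_one_le_exp ((T / 4) ^ 2)
        rw [Real.exp_neg, ← div_eq_mul_inv, div_le_one (Real.exp_pos _)]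
        nlinarith
      calc ‖H z‖ * Real.exp ((z.re - u.re) ^ 2 - (z.im - u.im) ^ 2)
          ≤ (W * (3 * T * F ^ (1 / p))) * Real.exp (X ^ 2 - (T / 4) ^ 2) :=
            mul_le_mul h4 (Real.exp_le_exp.2 (by linarith)) (Real.exp_pos _).le (by positivity)
        _ = (3 * T * Real.exp (-(T / 4) ^ 2)) * (W * Real.exp (X ^ 2) * F ^ (1 / p)) := by
            rw [sub_eq_add_neg, Real.exp_add]
            ring
        _ ≤ 1 * (W * Real.exp (X ^ 2) * F ^ (1 / p)) := mul_le_mul_of_nonneg_right h7 (by positivity)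
        _ ≤ _ := by
            have : 0 ≤ W * Real.exp (X ^ 2) * F ^ (1 / p) := by positivity
            linarith
  have huO : u ∈ closure O := by
    rw [hO]
    rcases eq_or_lt_of_le hu0 with c1 | c1
    · rw [Metric.mem_closure_iff]
      intro ε hε
      refine ⟨u + ((min (ε / 2) 1 : ℝ) : ℂ), ?_, ?_⟩
      · have hm : 0 < min (ε / 2) 1 := lt_min (by linarith) one_pos
        have hm1 : min (ε / 2) 1 ≤ 1 := min_le_right _ _
        refine ⟨?_, ?_, ?_⟩
        · rw [add_re, ofReal_re]; linarith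
        · rw [add_re, ofReal_re, hX]; linarith
        · rw [add_im, ofReal_im, add_zero]; linarith
      · have hm : 0 < min (ε / 2) 1 := lt_min (by linarith) one_pos
        rw [dist_eq_norm, sub_add_cancel_left, norm_neg, Complex.norm_real, Real.norm_of_nonneg hm.le]
        have := min_le_left (ε / 2) 1
        linarith
    · apply subset_closure
      exact ⟨c1, by rw [hX]; linarith, by linarith⟩
  have key := Complex.norm_le_of_forall_mem_frontier_norm_le (hQb.subset hOQ) ((hGd.mono hcl).diffContOnCl)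
    hbd huO
  have hGu : G u = H u := by
    rw [hG]
    simp
  rw [hGu, hHz] at key
  rw [← hW]
  exact key

end Pool.Agent.H875.TM
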