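import Pool.Agent.H875.TM.Pol

set_option autoImplicit false

/-!
# Moments of zeta up to powers of the logarithm: the equivalence
-/

namespace Pool.Agent.H875.TM

open Complex Filter Topology Set MeasureTheory Metric
open Pool.Agent.H24R2.JP (XX HH Om)
open Pool.Agent.H875.TC (series)
open scoped ComplexConjugate

lemma root_pow {p x F : ℝ} (hp : 0 < p) (hx : 0 ≤ x) (hF : 0 ≤ F) : (x * F ^ (1 / p)) ^ p = x ^ p * F := by
  rw [Real.mul_rpow hx (Real.rpow_nonneg hF _), ← Real.rpow_mul hF, one_div, inv_mul_cancel₀ hp.ne',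
    Real.rpow_one]

lemma pow_root {p x F : ℝ} (hp : 0 < p) (hx : 0 ≤ x) (hF : 0 ≤ F) : (x ^ p * F) ^ (1 / p) = x * F ^ (1 / p) := by
  rw [Real.mul_rpow (Real.rpow_nonneg hx _) hF, ← Real.rpow_mul hx, mul_one_div_cancel hp.ne', Real.rpow_one]

lemma log_one {T : ℝ} (hT : 4 ≤ T) : 1 ≤ Real.log T := by
  rw [Real.le_log_iff_exp_le (by linarith)]
  have := Real.exp_one_lt_d9
  linarith

/-- **The moments of all derivatives.** -/
theorem dl_of_la {p A r0 : ℝ} (hp : 2 ≤ p) (hA : 0 ≤ A) (hr0 : 0 < r0) (h : LA p A) :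
    ∃ C T0 : ℝ, 0 ≤ C ∧ ∀ T : ℝ, T0 ≤ T → ∀ n : ℕ, Ip p (gd n r0) T (2 * T) ≤
      ((n.factorial : ℝ) / r0 ^ n) ^ p * (C * (T * Real.log T ^ A)) := by
  have hpq : p.HolderConjugate (p / (p - 1)) := Real.HolderConjugate.conjExponent (by linarith)
  obtain ⟨q, hq⟩ : ∃ q, q = p / (p - 1) := ⟨_, rfl⟩
  rw [← hq] at hpq
  have hp0 : 0 < p := by linarith
  obtain ⟨K, T1, hK, hT1, k1⟩ := right_log hp hpq hA h (2 * r0 + 1) (by linarith)
  refine ⟨K, max T1 (r0 + 2), by linarith, fun T hT n => ?_⟩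
  have g1 : T1 ≤ T := (le_max_left _ _).trans hT
  have g2 : r0 + 2 ≤ T := (le_max_right _ _).trans hT
  have hT1' : 1 < T := by linarith
  have hab : T ≤ 2 * T := by linarith
  obtain ⟨F, hF⟩ : ∃ F : ℝ, F = K * (T * Real.log T ^ A) := ⟨_, rfl⟩
  have hF0 : 0 ≤ F := by
    rw [hF]
    have := Real.log_nonneg hT1'.le
    positivity
  rw [← hF, ← root_pow hp0 (by positivity) hF0]
  refine dual hp hpq hab (gd_cont n r0 hT1') (by positivity) fun w hw => ?_
  rw [← fn_iter hT1' hw]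
  obtain ⟨W, hW⟩ : ∃ W, W = Ip q w T (2 * T) ^ (1 / q) := ⟨_, rfl⟩
  rw [← hW]
  have hsub : closedBall (1 / 2 + (r0 : ℂ)) r0 ⊆ V0 T := by
    intro z hz
    rw [mem_closedBall, dist_eq_norm] at hz
    have h1 := (abs_im_le_norm (z - (1 / 2 + (r0 : ℂ)))).trans hz
    have e1 : (z - (1 / 2 + (r0 : ℂ))).im = z.im := by simp
    rw [e1] at h1
    change |z.im| < T - 1
    linarith
  have hd : DiffContOnCl ℂ (Fn riemannZeta w T (2 * T)) (ball (1 / 2 + (r0 : ℂ)) r0) :=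
    ((fn_diffOn U0_open zeta_U0 hab hw UV).mono hsub).diffContOnCl_ball subset_rfl
  have h4 := Complex.norm_iteratedDeriv_le_of_forall_mem_sphere_norm_le n hr0 hd
    (C := W * F ^ (1 / p)) (by
      intro z hz
      rw [mem_sphere, dist_eq_norm] at hz
      obtain ⟨u, hu⟩ : ∃ u : ℂ, u = z - 1 / 2 := ⟨_, rfl⟩
      have e2 : z - (1 / 2 + (r0 : ℂ)) = u - (r0 : ℂ) := by rw [hu]; ring
      rw [e2] at hz
      have hre := abs_le.1 ((abs_re_le_norm (u - (r0 : ℂ))).trans hz.le)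
      have him := (abs_im_le_norm (u - (r0 : ℂ))).trans hz.le
      rw [sub_re, ofReal_re] at hre
      rw [sub_im, ofReal_im, sub_zero] at him
      have e3 : Fn riemannZeta w T (2 * T) z = ∫ τ in T..(2 * T), w τ * gz u τ := by
        unfold Fn gz
        congr 1
        funext τ
        rw [hu]
        congr 2
        ring
      rw [e3, hW]
      have h5 := (abs_le.1 him).1
      have h6 := k1 T g1 u (by linarith) (by linarith) (by linarith)
      rw [← hF] at h6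
      exact hold3 hpq hab hw (gz_cont u (by linarith)) h6)
  refine h4.trans (le_of_eq ?_)
  ring

/-- the bound for the derivatives of order `n ≤ κ log T` -/
def DL (p A κ r0 : ℝ) : Prop := ∃ C T0 : ℝ, 0 ≤ C ∧ ∀ T : ℝ, T0 ≤ T → ∀ n : ℕ, (n : ℝ) ≤ κ * Real.log T →
  Ip p (gd n r0) T (2 * T) ≤ ((n.factorial : ℝ) / r0 ^ n) ^ p * (C * (T * Real.log T ^ A))

/-- **The moments on the line.** -/
theorem la_of_dl {p A κ r0 : ℝ} (hp : 2 ≤ p) (hA : 0 ≤ A) (hr0 : 0 < r0) (hκ : 0 < κ)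
    (hκ2 : 1 / 2 < κ * Real.log (1 + 1 / (2 * r0))) (h : DL p A κ r0) : LA p (A + p) := by
  have hpq : p.HolderConjugate (p / (p - 1)) := Real.HolderConjugate.conjExponent (by linarith)
  obtain ⟨q', hq'⟩ : ∃ q', q' = p / (p - 1) := ⟨_, rfl⟩
  rw [← hq'] at hpq
  have hp0 : 0 < p := by linarith
  obtain ⟨δ, hδ⟩ : ∃ δ, δ = κ * Real.log (1 + 1 / (2 * r0)) - 1 / 2 := ⟨_, rfl⟩
  have hδ0 : 0 < δ := by rw [hδ]; linarith
  obtain ⟨η, hη⟩ : ∃ η, η = min (δ / 4) (1 / 2) := ⟨_, rfl⟩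
  have hη0 : 0 < η := by rw [hη]; exact lt_min (by linarith) (by norm_num)
  have hη1 : η ≤ δ / 4 := by rw [hη]; exact min_le_left _ _
  have hη2 : η ≤ 1 / 2 := by rw [hη]; exact min_le_right _ _
  obtain ⟨Y, hY⟩ : ∃ Y, Y = 1 / 2 + η := ⟨_, rfl⟩
  obtain ⟨R, hR⟩ : ∃ R, R = r0 + Y := ⟨_, rfl⟩
  have hR0 : 0 < R := by rw [hR, hY]; linarith
  obtain ⟨y, hy⟩ : ∃ y, y = r0 / R := ⟨_, rfl⟩
  have hy0 : 0 < y := by rw [hy]; positivity
  have hy1 : y < 1 := by rw [hy, div_lt_one hR0, hR, hY]; linarith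
  have hlogy : κ * Real.log y ≤ -(1 / 2 + δ) := by
    have h1 : Real.log y = -Real.log (R / r0) := by
      rw [hy, ← Real.log_inv, inv_div]
    have h2 : Real.log (1 + 1 / (2 * r0)) ≤ Real.log (R / r0) := by
      apply Real.log_le_log (by positivity)
      have e : R / r0 = 1 + Y / r0 := by rw [hR]; field_simp
      rw [e]
      have : 1 / (2 * r0) ≤ Y / r0 := by
        rw [div_le_div_iff₀ (by positivity) hr0, hY]
        nlinarith
      linarith
    have h3 := mul_le_mul_of_nonneg_left h2 hκ.le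
    rw [h1]
    linarith
  obtain ⟨C, T1, hC, k1⟩ := h
  obtain ⟨T2, hT2, k2⟩ := zpt (Y := Y) (by rw [hY]; linarith) (by rw [hY]; linarith) (δ / 4) (by linarith)
  obtain ⟨a, ha⟩ : ∃ a, a = Y + δ / 4 := ⟨_, rfl⟩
  have ha0 : 0 < a := by rw [ha, hY]; linarith
  have hinv : 0 < (1 - y)⁻¹ := inv_pos.2 (by linarith)
  obtain ⟨K4, hK4⟩ : ∃ K4, K4 = (κ + 1) * C ^ (1 / p) + (1 - y)⁻¹ * 3 ^ a := ⟨_, rfl⟩
  have hCp : 0 ≤ C ^ (1 / p) := Real.rpow_nonneg hC _
  have hK40 : 0 ≤ K4 := by rw [hK4]; positivity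
  refine ⟨K4 ^ p, max T1 (max (T2 + R) (2 * R + 4)), by positivity, fun T hT => ?_⟩
  have g1 : T1 ≤ T := (le_max_left _ _).trans hT
  have g2 : T2 + R ≤ T := ((le_max_left _ _).trans (le_max_right _ _)).trans hT
  have g3 : 2 * R + 4 ≤ T := ((le_max_right _ _).trans (le_max_right _ _)).trans hT
  have hT0 : 0 < T := by linarith
  have hT1' : 1 < T := by linarith
  have hab : T ≤ 2 * T := by linarith
  have hL1 : 1 ≤ Real.log T := log_one (by linarith)
  have hL0 : 0 < Real.log T := by linarith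
  have k1 := k1 T g1
  obtain ⟨F, hF⟩ : ∃ F : ℝ, F = C * (T * Real.log T ^ A) := ⟨_, rfl⟩
  have hF0 : 0 ≤ F := by rw [hF]; positivity
  rw [← hF] at k1
  obtain ⟨tp, htp⟩ : ∃ tp : ℝ, tp = T ^ (1 / p) := ⟨_, rfl⟩
  have htp0 : 0 < tp := by rw [htp]; positivity
  have hFp : F ^ (1 / p) = C ^ (1 / p) * (tp * Real.log T ^ (A / p)) := by
    rw [hF, Real.mul_rpow hC (by positivity), Real.mul_rpow hT0.le (by positivity), ← Real.rpow_mul hL0.le, htp]
    congr 3
    ring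
  have hX : K4 ^ p * (T * Real.log T ^ (A + p)) = (K4 * (tp * Real.log T ^ (1 + A / p))) ^ p := by
    rw [Real.mul_rpow hK40 (by positivity), Real.mul_rpow htp0.le (by positivity), htp, ← Real.rpow_mul hT0.le,
      one_div, inv_mul_cancel₀ hp0.ne', Real.rpow_one, ← Real.rpow_mul hL0.le]
    congr 3
    field_simp
    ring
  rw [hX]
  refine dual hp hpq hab (gz_cont 0 (by simpa using hT0)) (by positivity) fun w hw => ?_
  obtain ⟨W, hW⟩ : ∃ W, W = Ip q' w T (2 * T) ^ (1 / q') := ⟨_, rfl⟩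
  have hW0 : 0 ≤ W := by rw [hW]; exact Real.rpow_nonneg (ip_nonneg hab w) _
  rw [← hW]
  obtain ⟨H, hH⟩ : ∃ H : ℂ → ℂ, H = Fn riemannZeta w T (2 * T) := ⟨_, rfl⟩
  obtain ⟨s0, hs0⟩ : ∃ s0 : ℂ, s0 = 1 / 2 + (r0 : ℂ) := ⟨_, rfl⟩
  obtain ⟨z, hz⟩ : ∃ z : ℂ, z = 1 / 2 := ⟨_, rfl⟩
  have hzs : z - s0 = ((-r0 : ℝ) : ℂ) := by
    rw [hz, hs0]; push_cast; ring
  have hnz : ‖z - s0‖ = r0 := by
    rw [hzs, Complex.norm_real, Real.norm_eq_abs, abs_neg, abs_of_pos hr0]
  have hHz : H z = ∫ τ in T..(2 * T), w τ * gz 0 τ := by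
    rw [hH]
    unfold Fn gz
    rw [hz, add_zero]
  have hsub : closedBall s0 R ⊆ V0 T := by
    intro x hx
    rw [mem_closedBall, dist_eq_norm] at hx
    have h1 := (abs_im_le_norm (x - s0)).trans hx
    have e1 : (x - s0).im = x.im := by rw [hs0]; simp
    rw [e1] at h1
    change |x.im| < T - 1
    linarith
  have hHd : DifferentiableOn ℂ H (closedBall s0 R) := by
    rw [hH]
    exact (fn_diffOn U0_open zeta_U0 hab hw UV).mono hsub
  have hsum := Complex.hasSum_taylorSeries_on_ball (f := H) (c := s0) (r := R) (z := z)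
    (hHd.mono ball_subset_closedBall) (by rw [mem_ball, dist_eq_norm, hnz, hR, hY]; linarith)
  have hcau : ∀ n : ℕ, ‖iteratedDeriv n H s0‖ ≤ (n.factorial : ℝ) * (W * (3 ^ a * T ^ a * tp)) / R ^ n := by
    intro n
    refine Complex.norm_iteratedDeriv_le_of_forall_mem_sphere_norm_le n hR0 (hHd.diffContOnCl_ball subset_rfl) ?_
    intro x hx
    rw [mem_sphere, dist_eq_norm] at hx
    obtain ⟨u, hu⟩ : ∃ u : ℂ, u = x - 1 / 2 := ⟨_, rfl⟩
    have e2 : x - s0 = u - (r0 : ℂ) := by rw [hu, hs0]; ring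
    rw [e2] at hx
    have hre := abs_le.1 ((abs_re_le_norm (u - (r0 : ℂ))).trans hx.le)
    have him := (abs_im_le_norm (u - (r0 : ℂ))).trans hx.le
    rw [sub_re, ofReal_re] at hre
    rw [sub_im, ofReal_im, sub_zero] at him
    have him' := abs_le.1 him
    have e3 : H x = ∫ τ in T..(2 * T), w τ * gz u τ := by
      rw [hH]
      unfold Fn gz
      congr 1
      funext τ
      rw [hu]
      congr 2
      ring
    rw [e3, hW]
    have hgc : ContinuousOn (gz u) (Icc T (2 * T)) := gz_cont u (by linarith)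
    have h1 := ip_const (p := p) (E := 3 ^ a * T ^ a) hp0 hab hgc (fun τ hτ => by
      have him2 : (1 / 2 + u + (τ : ℂ) * I).im = u.im + τ := by simp
      have h2 := k2 (1 / 2 + u + (τ : ℂ) * I) (by simp; linarith) (by rw [him2]; linarith [hτ.1])
      unfold gz
      refine h2.trans ?_
      rw [him2, ← ha, ← Real.mul_rpow (by norm_num) hT0.le]
      exact Real.rpow_le_rpow (by linarith [hτ.1]) (by linarith [hτ.2]) ha0.le)
    rw [show 2 * T - T = T by ring] at h1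
    refine (hold3 hpq hab hw hgc h1).trans (le_of_eq ?_)
    rw [mul_comm T, pow_root hp0 (by positivity) hT0.le, ← htp]
  obtain ⟨M, hMd⟩ : ∃ M : ℕ, M = ⌊κ * Real.log T⌋₊ + 1 := ⟨_, rfl⟩
  have hm0 : 0 ≤ κ * Real.log T := by positivity
  have hm1 : (M : ℝ) ≤ κ * Real.log T + 1 := by
    rw [hMd]; push_cast
    have := Nat.floor_le hm0
    linarith
  have hm2 : κ * Real.log T ≤ M := by
    rw [hMd]; push_cast
    exact (Nat.lt_floor_add_one _).le
  have hfin := series hsum hy0 hy1 (A := W * F ^ (1 / p)) (B := W * (3 ^ a * T ^ a * tp))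
    (mul_nonneg hW0 (Real.rpow_nonneg hF0 _)) (by positivity) M (by
      intro n hn
      have hn1 : (n : ℝ) ≤ κ * Real.log T := by
        have h4 : n ≤ ⌊κ * Real.log T⌋₊ := by omega
        exact (Nat.le_floor_iff hm0).1 h4
      have h5 := hold3 hpq hab hw (gd_cont n r0 hT1') (k1 n hn1)
      rw [← fn_iter hT1' hw, ← hH, ← hs0, ← hW, pow_root hp0 (by positivity) hF0] at h5
      rw [norm_smul, norm_smul, norm_inv, norm_pow, hnz, Complex.norm_natCast]
      have hf : (0 : ℝ) < n.factorial := by exact_mod_cast n.factorial_pos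
      calc (n.factorial : ℝ)⁻¹ * (r0 ^ n * ‖iteratedDeriv n H s0‖)
          ≤ (n.factorial : ℝ)⁻¹ * (r0 ^ n * (W * ((n.factorial : ℝ) / r0 ^ n * F ^ (1 / p)))) :=
            mul_le_mul_of_nonneg_left (mul_le_mul_of_nonneg_left h5 (by positivity)) (by positivity)
        _ = _ := by field_simp)
    (by
      intro n
      rw [norm_smul, norm_smul, norm_inv, norm_pow, hnz, Complex.norm_natCast, hy, div_pow]
      have hf : (0 : ℝ) < n.factorial := by exact_mod_cast n.factorial_pos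
      calc (n.factorial : ℝ)⁻¹ * (r0 ^ n * ‖iteratedDeriv n H s0‖)
          ≤ (n.factorial : ℝ)⁻¹ * (r0 ^ n * ((n.factorial : ℝ) * (W * (3 ^ a * T ^ a * tp)) / R ^ n)) :=
            mul_le_mul_of_nonneg_left (mul_le_mul_of_nonneg_left (hcau n) (by positivity)) (by positivity)
        _ = _ := by field_simp)
  rw [← hHz]
  refine hfin.trans ?_
  have hqm : y ^ M * T ^ a ≤ 1 := by
    rw [← Real.rpow_natCast, Real.rpow_def_of_pos hy0, Real.rpow_def_of_pos hT0, ← Real.exp_add]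
    rw [Real.exp_le_one_iff]
    have h1 : Real.log y * M ≤ Real.log y * (κ * Real.log T) :=
      mul_le_mul_of_nonpos_left hm2 (Real.log_neg hy0 hy1).le
    have h2 : Real.log y * (κ * Real.log T) ≤ -(1 / 2 + δ) * Real.log T := by
      have := mul_le_mul_of_nonneg_right hlogy hL0.le
      linarith
    have h3 : Real.log T * a ≤ Real.log T * (1 / 2 + δ / 2) := by
      apply mul_le_mul_of_nonneg_left _ hL0.le
      rw [ha, hY]
      linarith
    nlinarith
  have hP : 1 ≤ Real.log T ^ (1 + A / p) := Real.one_le_rpow hL1 (by positivity)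
  have hsplit : Real.log T ^ (1 + A / p) = Real.log T * Real.log T ^ (A / p) := by
    rw [Real.rpow_add hL0, Real.rpow_one]
  have hq1 : (M : ℝ) * F ^ (1 / p) ≤ (κ + 1) * C ^ (1 / p) * (tp * Real.log T ^ (1 + A / p)) := by
    rw [hFp, hsplit]
    have h1 : (M : ℝ) ≤ (κ + 1) * Real.log T := by linarith
    calc (M : ℝ) * (C ^ (1 / p) * (tp * Real.log T ^ (A / p)))
        ≤ ((κ + 1) * Real.log T) * (C ^ (1 / p) * (tp * Real.log T ^ (A / p))) :=
          mul_le_mul_of_nonneg_right h1 (by positivity)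
      _ = _ := by ring
  have hq2 : y ^ M * (1 - y)⁻¹ * (3 ^ a * T ^ a * tp) ≤ (1 - y)⁻¹ * 3 ^ a * (tp * Real.log T ^ (1 + A / p)) := by
    calc y ^ M * (1 - y)⁻¹ * (3 ^ a * T ^ a * tp) = (y ^ M * T ^ a) * ((1 - y)⁻¹ * 3 ^ a * tp) := by ring
      _ ≤ 1 * ((1 - y)⁻¹ * 3 ^ a * tp) := mul_le_mul_of_nonneg_right hqm (by positivity)
      _ = (1 - y)⁻¹ * 3 ^ a * (tp * 1) := by ring
      _ ≤ _ := by
          apply mul_le_mul_of_nonneg_left _ (by positivity)
          exact mul_le_mul_of_nonneg_left hP htp0.le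
  calc (M : ℝ) * (W * F ^ (1 / p)) + y ^ M * (1 - y)⁻¹ * (W * (3 ^ a * T ^ a * tp))
      = W * ((M : ℝ) * F ^ (1 / p) + y ^ M * (1 - y)⁻¹ * (3 ^ a * T ^ a * tp)) := by ring
    _ ≤ W * ((κ + 1) * C ^ (1 / p) * (tp * Real.log T ^ (1 + A / p)) +
        (1 - y)⁻¹ * 3 ^ a * (tp * Real.log T ^ (1 + A / p))) :=
        mul_le_mul_of_nonneg_left (add_le_add hq1 hq2) hW0
    _ = _ := by rw [hK4]; ring

end Pool.Agent.H875.TM
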