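import Pool.Agent.H875.TM.PI
import Pool.Agent.H875.TC.Base
import Pool.Agent.W169.HF.AsmC

set_option autoImplicit false

/-!
# Moments of the completed zeta function near the critical line
-/

namespace Pool.Agent.H875.TM

open Complex Filter Topology Set MeasureTheory Metric
open Pool.Agent.H24R2.JP (XX HH Om)
open Pool.Agent.Hp428.LS (HH_pos XX_sym)
open scoped ComplexConjugate

/-- the weight -/
noncomputable def ρ (τ : ℝ) : ℂ := ((‖HH (I * τ)‖⁻¹ : ℝ) : ℂ)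

/-- the normalised completed function -/
noncomputable def gq (u : ℂ) (τ : ℝ) : ℂ := ρ τ * XX (u + (τ : ℂ) * I)

/-- zeta -/
noncomputable def gz (u : ℂ) (τ : ℝ) : ℂ := riemannZeta (1 / 2 + u + (τ : ℂ) * I)

lemma xx_diff : Differentiable ℂ XX := Pool.Agent.H24R2.JP.B1h.XX_diff

lemma hh_cont {a b : ℝ} (ha : 0 < a) : ContinuousOn (fun τ : ℝ => ‖HH (I * τ)‖) (Icc a b) := by
  apply ContinuousOn.norm
  intro τ hτ
  have h1 : 0 < (I * (τ : ℂ)).im := by simp; linarith [hτ.1]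
  have h2 := (Pool.Agent.H24R2.JP.StirAux.HH_diff h1).continuousAt
  exact (h2.comp (f := fun τ : ℝ => I * (τ : ℂ)) (by fun_prop)).continuousWithinAt

lemma ρ_cont {a b : ℝ} (ha : 0 < a) : ContinuousOn ρ (Icc a b) := by
  apply Complex.continuous_ofReal.comp_continuousOn
  exact (hh_cont ha).inv₀ fun τ hτ => (HH_pos (lt_of_lt_of_le ha hτ.1)).ne'

lemma gq_cont (u : ℂ) {a b : ℝ} (ha : 0 < a) : ContinuousOn (gq u) (Icc a b) :=
  (ρ_cont ha).mul (xx_diff.continuous.comp (by fun_prop)).continuousOn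

lemma gz_cont (u : ℂ) {a b : ℝ} (ha : 0 < a + u.im) : ContinuousOn (gz u) (Icc a b) := by
  intro τ hτ
  have h1 : (1 / 2 + u + (τ : ℂ) * I) ≠ 1 := by
    intro h
    have := congrArg Complex.im h
    simp at this
    linarith [hτ.1]
  have h2 := (differentiableAt_riemannZeta h1).continuousAt
  exact (h2.comp (f := fun τ : ℝ => 1 / 2 + u + (τ : ℂ) * I) (by fun_prop)).continuousWithinAt

lemma gq_norm {τ : ℝ} (hτ : 0 < τ) (u : ℂ) : ‖gq u τ‖ = ‖XX (I * τ + u)‖ / ‖HH (I * τ)‖ := by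
  unfold gq ρ
  rw [norm_mul, Complex.norm_real, Real.norm_of_nonneg (inv_nonneg.2 (HH_pos hτ).le), div_eq_inv_mul]
  congr 3
  ring

/-- symmetry -/
lemma gq_sym {τ : ℝ} (hτ : 0 < τ) (u : ℂ) : ‖gq (-conj u) τ‖ = ‖gq u τ‖ := by
  rw [gq_norm hτ, gq_norm hτ]
  congr 1
  have e : I * (τ : ℂ) + -conj u = -conj (I * (τ : ℂ) + u) := by
    rw [map_add, map_mul, Complex.conj_I, Complex.conj_ofReal]
    ring
  rw [e, XX_sym, Complex.norm_conj]

lemma Om_block {T τ : ℝ} (hT : 1 ≤ T) (h1 : T ≤ τ) (h2 : τ ≤ 2 * T) : Om T ≤ Om τ ∧ Om τ ≤ Om T + 1 := by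
  unfold Om
  have h3 := Real.log_le_log (by linarith) h1
  have h4 := Real.log_le_log (by linarith) h2
  rw [Real.log_mul (by norm_num) (by linarith)] at h4
  have h5 := Real.log_two_lt_d9
  constructor <;> linarith

lemma Om_nonneg {T : ℝ} (hT : 1 ≤ T) : 0 ≤ Om T := by
  unfold Om
  have := Real.log_nonneg hT
  linarith

/-- comparison of zeta and the completed function -/
lemma comp (R : ℝ) (hR : 1 ≤ R) : ∃ K T0 : ℝ, 0 ≤ K ∧ 1 ≤ T0 ∧ ∀ T : ℝ, T0 ≤ T → ∀ τ ∈ Icc T (2 * T), ∀ u : ℂ,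
    0 ≤ u.re → ‖u‖ ≤ R → ‖gq u τ‖ ≤ Real.exp (Om T * u.re + K) * ‖gz u τ‖ ∧
      ‖gz u τ‖ ≤ Real.exp (-(Om T * u.re) + K) * ‖gq u τ‖ := by
  obtain ⟨K, hK, hH⟩ := Pool.Agent.H986R2.K4.hh
  obtain ⟨T2, hT2, h2⟩ := hH R hR
  refine ⟨K * R + R, max T2 (R + 1), by positivity, le_trans (by linarith) (le_max_right _ _),
    fun T hT τ hτ u hu hun => ?_⟩
  have g1 : T2 ≤ T := (le_max_left _ _).trans hT
  have g2 : R + 1 ≤ T := (le_max_right _ _).trans hT
  have hτ0 : 0 < τ := by linarith [hτ.1]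
  obtain ⟨o1, o2⟩ := Om_block (by linarith) hτ.1 hτ.2
  obtain ⟨-, k0, -, k1, k2⟩ := h2 τ u (g1.trans hτ.1) hun
  have hHp := HH_pos hτ0
  have hre : u.re ≤ R := (le_abs_self _).trans ((abs_re_le_norm u).trans hun)
  have him : 0 < (I * (τ : ℂ) + u).im := by
    have h3 := (abs_le.1 ((abs_im_le_norm u).trans hun)).1
    simp
    linarith [hτ.1]
  have e1 : gz u τ = riemannZeta (1 / 2 + (I * (τ : ℂ) + u)) := by
    unfold gz
    congr 1
    ring
  have hX : ‖XX (I * τ + u)‖ = ‖HH (I * τ + u)‖ * ‖gz u τ‖ := by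
    rw [Pool.Agent.H24R2.JP.zetaS.1 _ him, norm_mul, e1]
  have hb : Om τ * u.re ≤ Om T * u.re + R := by
    have h3 : Om τ * u.re ≤ (Om T + 1) * u.re := mul_le_mul_of_nonneg_right o2 hu
    linarith
  have hb2 : Om T * u.re ≤ Om τ * u.re := mul_le_mul_of_nonneg_right o1 hu
  rw [gq_norm hτ0]
  constructor
  · rw [div_le_iff₀ hHp, hX]
    have h4 : ‖HH (I * τ + u)‖ ≤ Real.exp (Om T * u.re + (K * R + R)) * ‖HH (I * τ)‖ := by
      refine k2.trans (mul_le_mul_of_nonneg_right (Real.exp_le_exp.2 ?_) hHp.le)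
      linarith
    calc ‖HH (I * τ + u)‖ * ‖gz u τ‖ ≤ (Real.exp (Om T * u.re + (K * R + R)) * ‖HH (I * τ)‖) * ‖gz u τ‖ :=
          mul_le_mul_of_nonneg_right h4 (norm_nonneg _)
      _ = _ := by ring
  · rw [mul_div_assoc', le_div_iff₀ hHp, hX]
    have h4 : ‖HH (I * τ)‖ ≤ Real.exp (-(Om T * u.re) + (K * R + R)) * ‖HH (I * τ + u)‖ := by
      have h5 : Real.exp (Om τ * u.re - K * R) * ‖HH (I * τ)‖ ≤ ‖HH (I * τ + u)‖ := k1
      have h6 : Real.exp (-(Om T * u.re) + (K * R + R)) * (Real.exp (Om τ * u.re - K * R) * ‖HH (I * τ)‖) ≤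
          Real.exp (-(Om T * u.re) + (K * R + R)) * ‖HH (I * τ + u)‖ :=
        mul_le_mul_of_nonneg_left h5 (Real.exp_pos _).le
      refine le_trans ?_ h6
      rw [← mul_assoc, ← Real.exp_add]
      have h7 : 1 ≤ Real.exp (-(Om T * u.re) + (K * R + R) + (Om τ * u.re - K * R)) := by
        apply Real.one_le_exp
        linarith
      exact le_mul_of_one_le_left hHp.le h7
    calc ‖gz u τ‖ * ‖HH (I * τ)‖ ≤ ‖gz u τ‖ * (Real.exp (-(Om T * u.re) + (K * R + R)) * ‖HH (I * τ + u)‖) :=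
          mul_le_mul_of_nonneg_left h4 (norm_nonneg _)
      _ = _ := by ring

/-- comparison of the integrals -/
lemma ip_le {p a b E F : ℝ} (hp : 0 < p) (hab : a ≤ b) {f g : ℝ → ℂ} (hf : ContinuousOn f (Icc a b))
    (hg : ContinuousOn g (Icc a b)) (hE : 0 ≤ E) (hF : 0 ≤ F) (h : ∀ τ ∈ Icc a b, ‖f τ‖ ≤ E * ‖g τ‖)
    (hI : Ip p g a b ≤ F ^ p) : Ip p f a b ≤ (E * F) ^ p := by
  have h1 : Ip p f a b ≤ ∫ τ in a..b, E ^ p * ‖g τ‖ ^ p := by
    apply intervalIntegral.integral_mono_on hab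
    · exact (cont_pow hp.le hf).intervalIntegrable_of_Icc hab
    · exact (continuousOn_const.mul (cont_pow hp.le hg)).intervalIntegrable_of_Icc hab
    · intro τ hτ
      rw [← Real.mul_rpow hE (norm_nonneg _)]
      exact Real.rpow_le_rpow (norm_nonneg _) (h τ hτ) hp.le
  rw [intervalIntegral.integral_const_mul] at h1
  rw [Real.mul_rpow hE hF]
  exact h1.trans (mul_le_mul_of_nonneg_left hI (Real.rpow_nonneg hE _))

/-- a constant bound -/
lemma ip_const {p a b E : ℝ} (hp : 0 < p) (hab : a ≤ b) {f : ℝ → ℂ} (hf : ContinuousOn f (Icc a b))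
    (h : ∀ τ ∈ Icc a b, ‖f τ‖ ≤ E) : Ip p f a b ≤ (b - a) * E ^ p := by
  have h1 : Ip p f a b ≤ ∫ τ in a..b, E ^ p := by
    apply intervalIntegral.integral_mono_on hab
    · exact (cont_pow hp.le hf).intervalIntegrable_of_Icc hab
    · exact intervalIntegrable_const
    · intro τ hτ
      exact Real.rpow_le_rpow (norm_nonneg _) (h τ hτ) hp.le
  rwa [intervalIntegral.integral_const, smul_eq_mul] at h1

end Pool.Agent.H875.TM
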