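import Pool.Agent.H875.TM.Mo
import Pool.Agent.H875.TC.Step

set_option autoImplicit false

/-!
# Moments of zeta and moments of the derivatives further to the right
-/

namespace Pool.Agent.H875.TM

open Complex Filter Topology Set MeasureTheory Metric
open Pool.Agent.H24R2.JP (XX HH Om)
open Pool.Agent.H875.TC (series)
open scoped ComplexConjugate

/-- the half-plane -/
def U0 : Set ℂ := {z : ℂ | 1 / 2 < z.im}

/-- the strip -/
def V0 (T : ℝ) : Set ℂ := {z : ℂ | |z.im| < T - 1}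

lemma U0_open : IsOpen U0 := isOpen_lt continuous_const Complex.continuous_im

lemma V0_open (T : ℝ) : IsOpen (V0 T) := isOpen_lt (Complex.continuous_im.abs) continuous_const

lemma zeta_U0 : DifferentiableOn ℂ riemannZeta U0 := by
  intro z hz
  apply (differentiableAt_riemannZeta _).differentiableWithinAt
  intro h
  have h1 : (1 : ℝ) / 2 < z.im := hz
  rw [h, one_im] at h1
  linarith

lemma UV {T : ℝ} {b : ℝ} : ∀ s ∈ V0 T, ∀ τ ∈ Icc T b, s + (τ : ℂ) * I ∈ U0 := by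
  intro s hs τ hτ
  have h1 : |s.im| < T - 1 := hs
  have h2 := (abs_lt.1 h1).1
  change 1 / 2 < (s + (τ : ℂ) * I).im
  simp
  linarith [hτ.1]

/-- the derivatives -/
noncomputable def gd (n : ℕ) (r0 : ℝ) (τ : ℝ) : ℂ :=
  iteratedDeriv n riemannZeta (1 / 2 + (r0 : ℂ) + (τ : ℂ) * I)

lemma gd_cont (n : ℕ) (r0 : ℝ) {T b : ℝ} (hT : 1 < T) : ContinuousOn (gd n r0) (Icc T b) := by
  have h1 := (diffOn_iter U0_open zeta_U0 n).continuousOn
  refine h1.comp (f := fun τ : ℝ => 1 / 2 + (r0 : ℂ) + (τ : ℂ) * I) (by fun_prop) fun τ hτ => ?_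
  refine UV (T := T) (b := b) (1 / 2 + (r0 : ℂ)) ?_ τ hτ
  change |(1 / 2 + (r0 : ℂ)).im| < T - 1
  simp
  linarith

/-- bounds for the moments of the derivatives of order `n ≤ (r₀ - r) / 2 log T` -/
def DM (p r r0 c : ℝ) : Prop := ∀ ε : ℝ, 0 < ε → ∃ T0 : ℝ, ∀ T : ℝ, T0 ≤ T → ∀ n : ℕ,
  (n : ℝ) ≤ (r0 - r) / 2 * Real.log T →
  Ip p (gd n r0) T (2 * T) ≤ ((n.factorial : ℝ) / (r0 - r) ^ n * Real.exp (Om T * (c + ε))) ^ p

/-- the derivatives of the functional -/
lemma fn_iter {T : ℝ} (hT : 1 < T) {w : ℝ → ℂ} (hw : ContinuousOn w (Icc T (2 * T))) (n : ℕ) (r0 : ℝ) :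
    iteratedDeriv n (Fn riemannZeta w T (2 * T)) (1 / 2 + (r0 : ℂ)) = ∫ τ in T..(2 * T), w τ * gd n r0 τ := by
  rw [piter U0_open (V0_open T) zeta_U0 (by linarith) hw UV n _ (by
    change |(1 / 2 + (r0 : ℂ)).im| < T - 1
    simp
    linarith)]
  rfl

/-- **Cauchy's estimate for the functional.** -/
lemma cauchy_fn {p q : ℝ} (hp : 2 ≤ p) (hpq : p.HolderConjugate q) {r r0 e : ℝ} (hr : 0 ≤ r) (hr1 : r ≤ 1 / 2)
    (hr0 : r < r0) (he : 2 / p ≤ e) (h : Mo p r e) (ε : ℝ) (hε : 0 < ε) :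
    ∃ T0 : ℝ, r0 - r + 2 ≤ T0 ∧ ∀ T : ℝ, T0 ≤ T → ∀ w : ℝ → ℂ, ContinuousOn w (Icc T (2 * T)) → ∀ n : ℕ,
      ‖iteratedDeriv n (Fn riemannZeta w T (2 * T)) (1 / 2 + (r0 : ℂ))‖ ≤
        (n.factorial : ℝ) / (r0 - r) ^ n * (Ip q w T (2 * T) ^ (1 / q) * Real.exp (Om T * (e + ε))) := by
  obtain ⟨T1, hT1, k1⟩ := sup_right hp hpq hr hr1 he h ε (r0 - r + 1) hε (by linarith)
  refine ⟨max T1 (r0 - r + 2), le_max_right _ _, fun T hT w hw n => ?_⟩
  have g1 : T1 ≤ T := (le_max_left _ _).trans hT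
  have g2 : r0 - r + 2 ≤ T := (le_max_right _ _).trans hT
  have hD : 0 < r0 - r := by linarith
  have hsub : closedBall (1 / 2 + (r0 : ℂ)) (r0 - r) ⊆ V0 T := by
    intro z hz
    rw [mem_closedBall, dist_eq_norm] at hz
    have h1 := (abs_im_le_norm (z - (1 / 2 + (r0 : ℂ)))).trans hz
    have e1 : (z - (1 / 2 + (r0 : ℂ))).im = z.im := by simp
    rw [e1] at h1
    change |z.im| < T - 1
    linarith
  have hd : DiffContOnCl ℂ (Fn riemannZeta w T (2 * T)) (ball (1 / 2 + (r0 : ℂ)) (r0 - r)) :=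
    ((fn_diffOn U0_open zeta_U0 (by linarith) hw UV).mono hsub).diffContOnCl_ball subset_rfl
  have h4 := Complex.norm_iteratedDeriv_le_of_forall_mem_sphere_norm_le n hD hd
    (C := Ip q w T (2 * T) ^ (1 / q) * Real.exp (Om T * (e + ε))) (by
      intro z hz
      rw [mem_sphere, dist_eq_norm] at hz
      obtain ⟨u, hu⟩ : ∃ u : ℂ, u = z - 1 / 2 := ⟨_, rfl⟩
      have e2 : z - (1 / 2 + (r0 : ℂ)) = u - (r0 : ℂ) := by rw [hu]; ring
      rw [e2] at hz
      have hre := (abs_le.1 ((abs_re_le_norm (u - (r0 : ℂ))).trans hz.le)).1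
      have him := (abs_im_le_norm (u - (r0 : ℂ))).trans hz.le
      rw [sub_re, ofReal_re] at hre
      rw [sub_im, ofReal_im, sub_zero] at him
      have e3 : Fn riemannZeta w T (2 * T) z = ∫ τ in T..(2 * T), w τ * gz u τ := by
        unfold Fn gz
        congr 1
        funext τ
        rw [hu]
        congr 2
        ring
      rw [e3]
      have h5 := (abs_le.1 him).1
      exact hold2 hpq (by linarith) hw (gz_cont u (by linarith)) (Real.exp_pos _).le
        (k1 T g1 u (by linarith) (by linarith)))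
  refine h4.trans (le_of_eq ?_)
  ring

/-- the moments of all the derivatives -/
theorem dm_of_mo {p q : ℝ} (hp : 2 ≤ p) (hpq : p.HolderConjugate q) {r r0 e : ℝ} (hr : 0 ≤ r) (hr1 : r ≤ 1 / 2)
    (hr0 : r < r0) (he : 2 / p ≤ e) (h : Mo p r e) : DM p r r0 e := by
  intro ε hε
  obtain ⟨T0, hT0, k0⟩ := cauchy_fn hp hpq hr hr1 hr0 he h ε hε
  refine ⟨T0, fun T hT n _ => ?_⟩
  have hD : 0 < r0 - r := by linarith
  have hT1 : 1 < T := by linarith
  refine dual hp hpq (by linarith) (gd_cont n r0 hT1) (by positivity) fun w hw => ?_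
  rw [← fn_iter hT1 hw]
  refine (k0 T hT w hw n).trans (le_of_eq ?_)
  ring

/-- towards the critical line -/
theorem step1 {p q : ℝ} (hp : 2 ≤ p) (hpq : p.HolderConjugate q) {r r0 c e h : ℝ} (hr : 0 ≤ r)
    (hr1 : r ≤ 1 / 2) (hr0 : r < r0) (he : 2 / p ≤ e) (hh : 0 < h) (hh2 : h < r0 - r)
    (hM : Mo p r e) (hDM : DM p r r0 c) :
    Mo p (r + h) (max c (e + (r0 - r) * Real.log (1 - h / (r0 - r)))) := by
  obtain ⟨D, hD⟩ : ∃ D, D = r0 - r := ⟨_, rfl⟩
  obtain ⟨y, hy⟩ : ∃ y, y = 1 - h / D := ⟨_, rfl⟩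
  obtain ⟨E, hE⟩ : ∃ E, E = max c (e + D * Real.log y) := ⟨_, rfl⟩
  have hE1 : c ≤ E := by rw [hE]; exact le_max_left _ _
  have hE2 : e + D * Real.log y ≤ E := by rw [hE]; exact le_max_right _ _
  have hD0 : 0 < D := by rw [hD]; linarith
  have hhD : h / D < 1 := by rw [div_lt_one hD0, hD]; exact hh2
  have hhD0 : 0 < h / D := by positivity
  have hy0 : 0 < y := by rw [hy]; linarith
  have hy1 : y < 1 := by rw [hy]; linarith
  rw [← hD, ← hy, ← hE]
  intro ε hε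
  obtain ⟨T1, k1⟩ := hDM (ε / 2) (by linarith)
  obtain ⟨T2, hT2, k2⟩ := cauchy_fn hp hpq hr hr1 hr0 he hM (ε / 2) (by linarith)
  have hinv : 0 < (1 - y)⁻¹ := inv_pos.2 (by linarith)
  obtain ⟨T3, hT3, k3⟩ := Om_large' (max (8 * D / ε ^ 2) ((1 - y)⁻¹ * (2 / ε)))
  refine ⟨max T1 (max T2 T3), fun T hT => ?_⟩
  have g1 : T1 ≤ T := (le_max_left _ _).trans hT
  have g2 : T2 ≤ T := ((le_max_left _ _).trans (le_max_right _ _)).trans hT
  have g3 : T3 ≤ T := ((le_max_right _ _).trans (le_max_right _ _)).trans hT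
  have hT1' : 1 < T := by linarith
  have hT2' : D + 2 ≤ T := by rw [hD]; linarith
  have hL0 : 0 ≤ Om T := Om_nonneg hT1'.le
  have hO1 := (le_max_left _ _).trans (k3 T g3)
  have hO2 := (le_max_right _ _).trans (k3 T g3)
  rw [div_le_iff₀ (by positivity)] at hO1
  rw [mul_div_assoc', div_le_iff₀ hε] at hO2
  have hab : T ≤ 2 * T := by linarith
  have k1 := k1 T g1
  have k2 := k2 T g2
  rw [← hD] at k1 k2
  obtain ⟨s0, hs0⟩ : ∃ s0 : ℂ, s0 = 1 / 2 + (r0 : ℂ) := ⟨_, rfl⟩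
  obtain ⟨z, hz⟩ : ∃ z : ℂ, z = 1 / 2 + ((r + h : ℝ) : ℂ) := ⟨_, rfl⟩
  have hzs : z - s0 = (((-(D - h) : ℝ)) : ℂ) := by
    rw [hz, hs0, hD]; push_cast; ring
  have hDh : 0 < D - h := by rw [hD]; linarith
  have hnz : ‖z - s0‖ = D - h := by
    rw [hzs, Complex.norm_real, Real.norm_eq_abs, abs_neg, abs_of_pos hDh]
  obtain ⟨M, hMd⟩ : ∃ M : ℕ, M = ⌊D * Om T⌋₊ + 1 := ⟨_, rfl⟩
  have hm0 : 0 ≤ D * Om T := by positivity
  have hm1 : (M : ℝ) ≤ D * Om T + 1 := by
    rw [hMd]; push_cast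
    have := Nat.floor_le hm0
    linarith
  have hm2 : D * Om T ≤ M := by
    rw [hMd]; push_cast
    exact (Nat.lt_floor_add_one _).le
  have hyD : y = (D - h) / D := by rw [hy]; field_simp
  have e1 : Real.exp (Om T * (c + ε / 2)) ≤ Real.exp (Om T * (E + ε / 2)) :=
    Real.exp_le_exp.2 (mul_le_mul_of_nonneg_left (by linarith) hL0)
  have hqm : y ^ M ≤ Real.exp (D * Om T * Real.log y) := by
    rw [← Real.rpow_natCast, Real.rpow_def_of_pos hy0]
    apply Real.exp_le_exp.2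
    have hlq : Real.log y < 0 := Real.log_neg hy0 hy1
    nlinarith
  have e2 : y ^ M * Real.exp (Om T * (e + ε / 2)) ≤ Real.exp (Om T * (E + ε / 2)) := by
    calc y ^ M * Real.exp (Om T * (e + ε / 2))
        ≤ Real.exp (D * Om T * Real.log y) * Real.exp (Om T * (e + ε / 2)) :=
          mul_le_mul_of_nonneg_right hqm (by positivity)
      _ = Real.exp (Om T * ((e + D * Real.log y) + ε / 2)) := by rw [← Real.exp_add]; congr 1; ring
      _ ≤ _ := Real.exp_le_exp.2 (mul_le_mul_of_nonneg_left (by linarith) hL0)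
  have h9 : (M : ℝ) + (1 - y)⁻¹ ≤ Real.exp (Om T * (ε / 2)) := by
    have hx0 : 0 ≤ Om T * (ε / 2) := by positivity
    have h10 := Real.quadratic_le_exp_of_nonneg hx0
    have h11 : D * Om T ≤ (Om T * (ε / 2)) ^ 2 / 2 := by
      have := mul_le_mul_of_nonneg_left hO1 hL0
      nlinarith
    linarith
  have hfac : (M : ℝ) * Real.exp (Om T * (c + ε / 2)) + y ^ M * (1 - y)⁻¹ * Real.exp (Om T * (e + ε / 2)) ≤
      Real.exp (Om T * (E + ε)) := by
    calc (M : ℝ) * Real.exp (Om T * (c + ε / 2)) + y ^ M * (1 - y)⁻¹ * Real.exp (Om T * (e + ε / 2))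
        = (M : ℝ) * Real.exp (Om T * (c + ε / 2)) +
          (1 - y)⁻¹ * (y ^ M * Real.exp (Om T * (e + ε / 2))) := by ring
      _ ≤ (M : ℝ) * Real.exp (Om T * (E + ε / 2)) + (1 - y)⁻¹ * Real.exp (Om T * (E + ε / 2)) :=
          add_le_add (mul_le_mul_of_nonneg_left e1 (Nat.cast_nonneg _)) (mul_le_mul_of_nonneg_left e2 hinv.le)
      _ = (M + (1 - y)⁻¹) * Real.exp (Om T * (E + ε / 2)) := by ring
      _ ≤ Real.exp (Om T * (ε / 2)) * Real.exp (Om T * (E + ε / 2)) :=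
          mul_le_mul_of_nonneg_right h9 (Real.exp_pos _).le
      _ = _ := by rw [← Real.exp_add]; congr 1; ring
  refine dual hp hpq hab (gz_cont _ (by rw [ofReal_im]; linarith)) (Real.exp_pos _).le fun w hw => ?_
  obtain ⟨W, hW⟩ : ∃ W, W = Ip q w T (2 * T) ^ (1 / q) := ⟨_, rfl⟩
  have hW0 : 0 ≤ W := by rw [hW]; exact Real.rpow_nonneg (ip_nonneg hab w) _
  obtain ⟨H, hH⟩ : ∃ H : ℂ → ℂ, H = Fn riemannZeta w T (2 * T) := ⟨_, rfl⟩
  have hHz : H z = ∫ τ in T..(2 * T), w τ * gz ((r + h : ℝ) : ℂ) τ := by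
    rw [hH]
    unfold Fn gz
    rw [hz]
  have hball : ball s0 D ⊆ V0 T := by
    intro x hx
    rw [mem_ball, dist_eq_norm] at hx
    have h1 := (abs_im_le_norm (x - s0)).trans hx.le
    have e1 : (x - s0).im = x.im := by rw [hs0]; simp
    rw [e1] at h1
    change |x.im| < T - 1
    linarith
  have hsum := Complex.hasSum_taylorSeries_on_ball (f := H) (c := s0) (r := D) (z := z)
    (by rw [hH]; exact (fn_diffOn U0_open zeta_U0 hab hw UV).mono hball)
    (by rw [mem_ball, dist_eq_norm, hnz]; linarith)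
  have hterm2 : ∀ (n : ℕ) (B : ℝ), ‖iteratedDeriv n H s0‖ ≤ (n.factorial : ℝ) / D ^ n * B →
      ‖((n.factorial : ℂ))⁻¹ • (z - s0) ^ n • iteratedDeriv n H s0‖ ≤ y ^ n * B := by
    intro n B hB
    rw [norm_smul, norm_smul, norm_inv, norm_pow, hnz, Complex.norm_natCast, hyD, div_pow]
    have hf : (0 : ℝ) < n.factorial := by exact_mod_cast n.factorial_pos
    have hDn : 0 < D ^ n := by positivity
    have hDhn : 0 < (D - h) ^ n := by positivity
    calc (n.factorial : ℝ)⁻¹ * ((D - h) ^ n * ‖iteratedDeriv n H s0‖)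
        ≤ (n.factorial : ℝ)⁻¹ * ((D - h) ^ n * ((n.factorial : ℝ) / D ^ n * B)) :=
          mul_le_mul_of_nonneg_left (mul_le_mul_of_nonneg_left hB hDhn.le) (by positivity)
      _ = _ := by field_simp
  have hfin := series hsum hy0 hy1 (A := W * Real.exp (Om T * (c + ε / 2)))
    (B := W * Real.exp (Om T * (e + ε / 2))) (by positivity) (by positivity) M (by
      intro n hn
      have hn1 : (n : ℝ) ≤ D / 2 * Real.log T := by
        have h4 : n ≤ ⌊D * Om T⌋₊ := by omega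
        have h5 := (Nat.le_floor_iff hm0).1 h4
        unfold Om at h5
        linarith
      have h5 := hold2 hpq hab hw (gd_cont n r0 hT1') (by positivity) (k1 n hn1)
      rw [← fn_iter hT1' hw, ← hH, ← hs0, ← hW] at h5
      refine (hterm2 n (W * Real.exp (Om T * (c + ε / 2))) (h5.trans (le_of_eq (by ring)))).trans ?_
      exact mul_le_of_le_one_left (by positivity) (pow_le_one₀ hy0.le hy1.le))
    (by
      intro n
      have h5 := k2 w hw n
      rw [← hs0, ← hH, ← hW] at h5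
      exact hterm2 n _ h5)
  rw [← hHz, ← hW]
  refine hfin.trans ?_
  calc (M : ℝ) * (W * Real.exp (Om T * (c + ε / 2))) +
        y ^ M * (1 - y)⁻¹ * (W * Real.exp (Om T * (e + ε / 2)))
      = W * ((M : ℝ) * Real.exp (Om T * (c + ε / 2)) +
        y ^ M * (1 - y)⁻¹ * Real.exp (Om T * (e + ε / 2))) := by ring
    _ ≤ _ := mul_le_mul_of_nonneg_left hfac hW0

end Pool.Agent.H875.TM
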