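import Pool.Agent.H875.TM.Q

set_option autoImplicit false

/-!
# Convexity of the moments of the completed zeta function
-/

namespace Pool.Agent.H875.TM

open Complex Filter Topology Set MeasureTheory Metric
open Pool.Agent.H24R2.JP (XX HH Om)
open Pool.Agent.Hp428.LS (HH_pos XX_sym)
open Pool.Agent.W169.HF (rect_all)
open scoped ComplexConjugate

lemma exp_Om {T : ℝ} (hT : 0 < T) : Real.exp (2 * Om T) = T := by
  unfold Om
  rw [mul_div_cancel₀ _ (two_ne_zero), Real.exp_log hT]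

lemma exp_Om' {T : ℝ} (hT : 0 < T) : Real.exp (Om T) = T ^ (1 / 2 : ℝ) := by
  unfold Om
  rw [Real.rpow_def_of_pos hT]
  congr 1
  ring

lemma T_le {p T : ℝ} (hp : 2 ≤ p) (hT : 1 ≤ T) : T ≤ Real.exp (Om T) ^ p := by
  have h0 := Om_nonneg hT
  rw [← Real.exp_mul]
  nth_rewrite 1 [← exp_Om (by linarith : 0 < T)]
  apply Real.exp_le_exp.2
  nlinarith

lemma T_eq {p T : ℝ} (hp : 2 ≤ p) (hT : 1 ≤ T) : T = Real.exp (Om T * (2 / p)) ^ p := by
  have hp0 : p ≠ 0 := by linarith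
  rw [← Real.exp_mul]
  nth_rewrite 1 [← exp_Om (by linarith : 0 < T)]
  congr 1
  field_simp

lemma Om_large' (c : ℝ) : ∃ T0 : ℝ, 1 ≤ T0 ∧ ∀ T : ℝ, T0 ≤ T → c ≤ Om T := by
  obtain ⟨T0, hT0, h⟩ := Pool.Agent.W186.HZ.Om_large c
  exact ⟨T0, by linarith, h⟩

/-- crude bound -/
lemma crude {p : ℝ} (hp : 2 ≤ p) (R : ℝ) (hR : 1 ≤ R) : ∃ T0 : ℝ, 1 ≤ T0 ∧ ∀ T : ℝ, T0 ≤ T → ∀ u : ℂ,
    |u.re| ≤ 1 → |u.im| ≤ R → Ip p (gq u) T (2 * T) ≤ Real.exp (Om T * 4) ^ p := by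
  obtain ⟨Tz, hTz, hz⟩ := TC.zeta_right (1 / 2) (by norm_num)
  obtain ⟨C', T1, hC', hT1, hP⟩ := Pool.Agent.H986R2.K4.pl Pool.Agent.H986R2.K4.hh 1 (1 / 2) 1 (max Tz 1) R one_pos
    le_rfl (by norm_num) (by norm_num) one_pos (le_max_right _ _) hR (by
      intro t ht
      have h1 := hz (1 / 2 + ((1 : ℝ) : ℂ) + t * I) (by simp) (by
        simp
        exact (le_max_left _ _).trans ht)
      have e : (1 / 2 + ((1 : ℝ) : ℂ) + t * I : ℂ).im = t := by simp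
      rw [e] at h1
      rwa [one_mul])
  obtain ⟨T2, hT2, h2⟩ := Om_large' (Real.log C' + 2)
  refine ⟨max T1 T2, hT2.trans (le_max_right _ _), fun T hT u hu1 hu2 => ?_⟩
  have g1 : T1 ≤ T := (le_max_left _ _).trans hT
  have g2 := h2 T ((le_max_right _ _).trans hT)
  have hT1' : 1 ≤ T := by linarith
  have hp0 : 0 < p := by linarith
  have h3 : ∀ τ ∈ Icc T (2 * T), ‖gq u τ‖ ≤ Real.exp (Om T * 3) := by
    intro τ hτ
    have hτ0 : 0 < τ := by linarith [hτ.1]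
    obtain ⟨o1, o2⟩ := Om_block hT1' hτ.1 hτ.2
    rw [gq_norm hτ0, div_le_iff₀ (HH_pos hτ0)]
    refine (hP τ u (g1.trans hτ.1) hu1 hu2).trans ?_
    rw [← mul_assoc]
    apply mul_le_mul_of_nonneg_right _ (norm_nonneg _)
    rw [← exp_Om' hτ0]
    nth_rewrite 1 [← Real.exp_log hC']
    rw [← Real.exp_add, ← Real.exp_add]
    apply Real.exp_le_exp.2
    linarith
  have h4 := ip_const hp0 (by linarith : T ≤ 2 * T) (gq_cont u (by linarith)) h3
  refine h4.trans ?_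
  have e : 2 * T - T = T := by ring
  rw [e]
  calc T * Real.exp (Om T * 3) ^ p ≤ Real.exp (Om T) ^ p * Real.exp (Om T * 3) ^ p :=
        mul_le_mul_of_nonneg_right (T_le hp hT1') (by positivity)
    _ = _ := by
        rw [← Real.mul_rpow (Real.exp_pos _).le (Real.exp_pos _).le, ← Real.exp_add]
        congr 2
        ring

lemma hold2 {p q : ℝ} (hpq : p.HolderConjugate q) {w g : ℝ → ℂ} {a b E : ℝ} (hab : a ≤ b)
    (hw : ContinuousOn w (Icc a b)) (hg : ContinuousOn g (Icc a b)) (hE : 0 ≤ E) (h : Ip p g a b ≤ E ^ p) :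
    ‖∫ τ in a..b, w τ * g τ‖ ≤ Ip q w a b ^ (1 / q) * E := by
  refine (holder hpq hab hw hg).trans ?_
  apply mul_le_mul_of_nonneg_left _ (Real.rpow_nonneg (ip_nonneg hab w) _)
  have hp0 : 0 < p := hpq.pos
  calc Ip p g a b ^ (1 / p) ≤ (E ^ p) ^ (1 / p) := Real.rpow_le_rpow (ip_nonneg hab g) h (by positivity)
    _ = E := by rw [← Real.rpow_mul hE, mul_one_div_cancel hp0.ne', Real.rpow_one]

/-- **Convexity of the moments.** -/
theorem three {p q : ℝ} (hp : 2 ≤ p) (hpq : p.HolderConjugate q) {X0 X1 a0 a1 κ R1 : ℝ} (h0 : -1 ≤ X0)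
    (h1 : X1 ≤ 1) (h01 : X0 < X1) (hκ : 0 < κ) (hR1 : 1 ≤ R1)
    (e0 : ∀ ε R : ℝ, 0 < ε → 1 ≤ R → ∃ T0 : ℝ, ∀ T : ℝ, T0 ≤ T → ∀ v : ℝ, |v| ≤ R →
      Ip p (gq ((X0 : ℂ) + v * I)) T (2 * T) ≤ Real.exp (Om T * (a0 + ε)) ^ p)
    (e1 : ∀ ε R : ℝ, 0 < ε → 1 ≤ R → ∃ T0 : ℝ, ∀ T : ℝ, T0 ≤ T → ∀ v : ℝ, |v| ≤ R →
      Ip p (gq ((X1 : ℂ) + v * I)) T (2 * T) ≤ Real.exp (Om T * (a1 + ε)) ^ p) :
    ∃ T0 : ℝ, 1 ≤ T0 ∧ ∀ T : ℝ, T0 ≤ T → ∀ u : ℂ, X0 ≤ u.re → u.re ≤ X1 → |u.im| ≤ R1 →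
      Ip p (gq u) T (2 * T) ≤
        Real.exp (Om T * (a0 + (a1 - a0) * ((u.re - X0) / (X1 - X0)) + κ)) ^ p := by
  obtain ⟨κ1, R, hκ1, hR, HR⟩ := rect_all (max (max |a0| |a1|) 4) (X1 - X0) κ R1
    (le_trans (by norm_num) (le_max_right _ _)) (by linarith) (by linarith) hκ hR1
  have hR' : 1 ≤ R := hR1.trans hR
  obtain ⟨T1, k1⟩ := e0 κ1 R hκ1 hR'
  obtain ⟨T2, k2⟩ := e1 κ1 R hκ1 hR'
  obtain ⟨T3, hT3, k3⟩ := crude hp R hR'
  refine ⟨max (max T1 T2) T3, hT3.trans (le_max_right _ _), fun T hT u hu0 hu1 hu2 => ?_⟩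
  have k1 := k1 T (((le_max_left _ _).trans (le_max_left _ _)).trans hT)
  have k2 := k2 T (((le_max_right _ _).trans (le_max_left _ _)).trans hT)
  have k3 := k3 T ((le_max_right _ _).trans hT)
  have hT1 : 1 ≤ T := hT3.trans ((le_max_right _ _).trans hT)
  have hT0 : 0 < T := by linarith
  have hab : T ≤ 2 * T := by linarith
  have hO := Om_nonneg hT1
  refine dual hp hpq hab (gq_cont u hT0) (Real.exp_pos _).le fun w hw => ?_
  obtain ⟨W, hW⟩ : ∃ W, W = Ip q w T (2 * T) ^ (1 / q) := ⟨_, rfl⟩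
  have hW0 : 0 ≤ W := by rw [hW]; exact Real.rpow_nonneg (ip_nonneg hab w) _
  have hhol : ∀ (z : ℂ) (E : ℝ), 0 ≤ E → Ip p (gq z) T (2 * T) ≤ E ^ p →
      ‖∫ τ in T..(2 * T), w τ * gq z τ‖ ≤ W * E := by
    intro z E hE h
    rw [hW]
    exact hold2 hpq hab hw (gq_cont z hT0) hE h
  rw [← hW]
  rcases eq_or_lt_of_le hW0 with hW1 | hW1
  · have h5 := holder hpq hab hw (gq_cont u hT0)
    rw [← hW, ← hW1, zero_mul] at h5
    rw [← hW1, zero_mul]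
    exact h5
  obtain ⟨h, hh⟩ : ∃ h : ℂ → ℂ, h = Fn XX (fun τ => w τ * ρ τ) T (2 * T) := ⟨_, rfl⟩
  have hwρ : ContinuousOn (fun τ => w τ * ρ τ) (Icc T (2 * T)) := hw.mul (ρ_cont hT0)
  have hhz : ∀ z : ℂ, h z = ∫ τ in T..(2 * T), w τ * gq z τ := by
    intro z
    rw [hh]
    unfold Fn gq
    congr 1
    funext τ
    ring
  have hdiff : Differentiable ℂ h := by
    intro z
    rw [hh]
    exact (pderiv isOpen_univ xx_diff.differentiableOn hab hwρ (fun _ _ => mem_univ _)).differentiableAt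
  have key := HR (Om T) X0 a0 a1 W h hO hW1 hdiff ((le_max_left _ _).trans (le_max_left _ _))
    ((le_max_right _ _).trans (le_max_left _ _))
    (fun z hz1 hz2 => by
      have e : z = (X0 : ℂ) + z.im * I := by
        apply Complex.ext <;> simp [hz1]
      rw [hhz, e]
      have h6 := hhol ((X0 : ℂ) + z.im * I) _ (Real.exp_pos _).le (k1 z.im hz2)
      refine h6.trans (le_of_eq ?_)
      congr 2
      ring)
    (fun z hz1 hz2 => by
      have e : z = (X1 : ℂ) + z.im * I := by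
        apply Complex.ext <;> simp [hz1]
      rw [hhz, e]
      have h6 := hhol ((X1 : ℂ) + z.im * I) _ (Real.exp_pos _).le (k2 z.im hz2)
      refine h6.trans (le_of_eq ?_)
      congr 2
      ring)
    (fun z hz1 hz2 hz3 => by
      rw [hhz]
      have h6 := hhol z _ (Real.exp_pos _).le (k3 z (abs_le.2 ⟨by linarith, by linarith⟩) hz3.le)
      refine h6.trans ?_
      apply mul_le_mul_of_nonneg_left _ hW0
      apply Real.exp_le_exp.2
      rw [mul_comm]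
      exact mul_le_mul_of_nonneg_right (le_max_right _ _) hO)
    u hu0 (by linarith) hu2
  rw [← hhz]
  refine key.trans (le_of_eq ?_)
  congr 2
  ring

end Pool.Agent.H875.TM
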